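import Pool.Agent.Q17.AM.Stm2
import Pool.Agent.Q17.DC.Stm4

/-!
# Statements of project AM on Brauer characters and weights
-/

set_option autoImplicit false

open scoped Classical

noncomputable section

namespace Pool.Agent.Q17.AM

open Pool.Agent.H254R3.IN
open Pool.Agent.Q17.WR
open Pool.Agent.Q17.DC

/-- JOB LLX. The dimension of the space of restrictions to the `p`-regular elements, for `Wc G r`. Proof.
Let `V` be the span of the restrictions of the members of `X` to the `p`-regular elements of `G`,
`l = dim V`. For `x.right = 1` the element `x` is `p`-regular if and only if all `x.left ω` are; for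
`x.right ≠ 1` it is `p`-regular if and only if `(x ^ r).left 1` is (`p ≠ r`, and the components of
`x ^ r` are conjugate). `∑ l, l a⁻¹ • cch θ l` for `a ≠ 1` is, up to the factor `r`, the function which is
`θ ((x ^ r).left 1)` for `x.right = a` and `0` for the other `x` (`x.right = 1` included), and
`∑ l, cch θ l` is `r ∏ θ (x.left ω)` on the base group and `0` outside. So the span in question is the
direct sum of `r - 1` copies of `V` (one for every `a ≠ 1`: the map
`v ↦ (x ↦ v ((x ^ r).left 1) for x.right = a)` is injective) and of the span of the functions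
`∑ a, prf (f ∘ a)`, `f : Cy r → X`, on the base group, which is the space of invariants of `Cy r` in the
span of the `prf v`, `v : Cy r → V`, the `r`-th tensor power of `V`. With a basis of `V` the latter has
a basis of the `l ^ r` products, permuted by `Cy r` with `l` fixed points, so the dimension is
`(l ^ r - l) / r + l`. Altogether `r * dim = l ^ r - l + r * l + r (r - 1) * l`. -/
def S_LLX : Prop := ∀ (G : Type) [Group G] [Fintype G] (p r : ℕ) [Fact p.Prime] [Fact r.Prime],
  p ≠ r → ∀ X : Set (G → ℂ), (r : ℤ) * (lB p (LX (r := r) X) : ℤ) =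
    (lB p X : ℤ) ^ r + ((r : ℤ) ^ 2 - 1) * (lB p X : ℤ)

/-- JOB LGX (`t_LGX : S_SECT → S_LGX`). The case of two different blocks. Proof. The spans `V`, `V'` of
the restrictions to the `p`-regular elements for two different blocks have intersection `0` (see
`S_SPA`, `S_SPB`, `Q261.DC.SPA`: `V ≤ span B` by `S_SECT`, and the irreducible characters are linearly
independent). The span for `GX B B'` is the image of `V ⊗ V'` under
`v ⊗ v' ↦ (x ↦ v (x.left 1) v' (x.left a) + v (x.left a) v' (x.left 1))` on the base group (`a` of order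
`2`); it is injective: take a basis of `V ⊕ V'`. -/
def S_LGX : Prop := ∀ (G : Type) [Group G] [Fintype G] (p : ℕ) [Fact p.Prime], p ≠ 2 →
  ∀ O : ValuationSubring ℂ, (p : ℂ) ∈ O.nonunits → ∀ B B' : Set (G → ℂ), IsBlock O B →
  IsBlock O B' → B ≠ B' → lB p (GX B B') = lB p B * lB p B'

/-- the product of the subgroups `Q ω` -/
def Pw {G : Type} [Group G] {r : ℕ} [Fact r.Prime] (Q : Cy r → Subgroup G) :
    Subgroup (Wc G r) where
  carrier := {x | x.right = 1 ∧ ∀ ω, x.left ω ∈ Q ω}
  one_mem' := ⟨rfl, fun ω => (Q ω).one_mem⟩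
  mul_mem' := by
    rintro x y ⟨hx, hx'⟩ ⟨hy, hy'⟩
    refine ⟨by rw [SemidirectProduct.mul_right, hx, hy, one_mul], fun ω => ?_⟩
    have h : (x * y).left ω = x.left ω * y.left (x.right⁻¹ * ω) := rfl
    rw [h, hx, inv_one, one_mul]
    exact (Q ω).mul_mem (hx' ω) (hy' ω)
  inv_mem' := by
    rintro x ⟨hx, hx'⟩
    refine ⟨by rw [SemidirectProduct.inv_right, hx, inv_one], fun ω => ?_⟩
    have h : (x⁻¹).left ω = (x.left (x.right * ω))⁻¹ := by
      change (x.left ((x.right⁻¹)⁻¹ * ω))⁻¹ = _
      rw [inv_inv]
    rw [h, hx, one_mul]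
    exact (Q ω).inv_mem (hx' ω)

/-- JOB WPQ. The subgroups in weights of `Wc G r` are products. Proof. `Q` is in the base group as
`p ≠ r`. Let `N` be its normaliser and `N₀` the intersection of `N` with the base group, of index `1`
or `r` in `N`. The restriction of `φ` to `N₀` has an irreducible constituent `φ₀` with `Q` in its
kernel, and `φ 1 / φ₀ 1` divides `|N : N₀|` (Clifford; or use that `φ` vanishes at all elements with
`p`-part outside `Q`, `S_DZV`), so `φ₀` is of defect zero for `N₀ / Q`, and `Q` is the largest normal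
`p`-subgroup of `N₀` (`S_DZV`, or `defectZero_normal` in `Y63.KR.Limit`). Let `Q'` be the product of the
projections of `Q` to the factors, a `p`-group containing `Q`; `N₀` normalises `Q'`, so the
intersection of `Q'` and `N₀`, which is the normaliser of `Q` in `Q'`, is a normal `p`-subgroup of
`N₀`, hence equal to `Q`, and `Q' = Q` by the normaliser condition in `p`-groups. -/
def S_WPQ : Prop := ∀ (G : Type) [Group G] [Fintype G] (p r : ℕ) [Fact p.Prime] [Fact r.Prime],
  p ≠ r → ∀ O : ValuationSubring ℂ, (p : ℂ) ∈ O.nonunits → ∀ (β : Set (Wc G r → ℂ))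
  (Q : Subgroup (Wc G r)) (φ : Subgroup.normalizer (Q : Set (Wc G r)) → ℂ), IsWt p O β Q φ →
  ∃ Q' : Cy r → Subgroup G, Q = Pw Q'

/-- JOB NWX (`t_NWX : S_CLS → S_CCL → S_BLK → S_WPQ → S_NWX`). The number of weights of the block `LX B`
of `Wc G r`. Proof. Let `M` be the base group. Let `W₀` be the set of the pairs `(Q, φ₀)` with `Q = Pw Q'`
and `φ₀` an irreducible character of `N_M(Q) = Pw (ω ↦ N_G(Q' ω))` which is the product of the
characters `φ₀ ω`, `(Q' ω, φ₀ ω)` a weight of `B`, modulo conjugation under `M`; so `W₀` is the set of the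
maps `Cy r → (classes of weights of B)` and has `w ^ r` elements, `w = nW p O B`; `Cy r` permutes `W₀`
with `w` fixed points. By `S_WPQ` and Clifford theory for `N_M(Q)` in `N_Γ(Q)` (index `1` or `r`) every
weight `(Q, φ)` of a block of `Γ = Wc G r` determines an orbit of `Cy r` on the corresponding set of
all blocks; the weights over an orbit of length `r` form one class (`φ` is induced from `N_M(Q)`, or
`N_M(Q) = N_Γ(Q)`), over a fixed point there are exactly `r` classes: `N_Γ(Q)` is `N_M(Q)` extended by
an element `t` with `t.right ≠ 1`, and after conjugation by an element of `M` all `Q' ω` and all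
`φ₀ ω` are equal, so `N_Γ(Q)` is `Wc (N_G(Q' 1)) r` and the characters over `φ₀` are the `cch (φ₀ 1) l`
(`S_CLS`; `S_TRN` in `Q17.AM.Stm` is the isomorphism). All degrees have the right `p`-part. Blocks:
`(Q, φ)` is a weight of `LX B` if and only if all `(Q' ω, φ₀ ω)` are weights of `B`: for `x` in `M` the
sum over the `y ∈ N_Γ(Q)` conjugate to `x` of `φ y / φ 1` is the sum over the `n` classes of `M` in the
class of `x` (see `S_CCL`, `S_COR`) of products of such sums for the `(Q' ω, φ₀ ω)`; if all of them are
weights of `B`, this is `n ∏ ω, omega χ (x.left ω)`, and for `x.right ≠ 1` it vanishes modulo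
`O.nonunits` like `omega` of the members of `LX B`: it is a sum of values `omega φ y`,
`y.right ≠ 1`, and these are `0` or, by `S_CCL`, multiples of `(|N_G(Q' 1)| / φ₀ 1 1) ^ (r - 1)`, in
`O.nonunits` if `Q' 1 ≠ 1` and, if `Q' 1 = 1`, as `φ₀ 1` would be a character of `B` of defect zero,
excluded by `Pos O B`. Conversely every `(Q' ω, φ₀ ω)` is a weight of some block `B ω` of `G` (`S_EXI`
in `Q17.DC.Stm2`, `t_EXI` in `Q38.DC.EXI`), and applying both central characters to the class
function `E x = ∏ ω, blockCoeff B (x.left ω)` on `M` (`0` outside) shows that `B ω = B` for all `ω`. -/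
def S_NWX : Prop := ∀ (G : Type) [Group G] [Fintype G] (p r : ℕ) [Fact p.Prime] [Fact r.Prime],
  p ≠ r → ∀ O : ValuationSubring ℂ, (p : ℂ) ∈ O.nonunits → ∀ B : Set (G → ℂ), IsBlock O B →
  Pos O B → (r : ℤ) * (nW p O (LX (r := r) B) : ℤ) =
    (nW p O B : ℤ) ^ r + ((r : ℤ) ^ 2 - 1) * (nW p O B : ℤ)

/-- JOB NGX (`t_NGX : S_CLS → S_CCL → S_GBL → S_WPQ → S_NGX`). The number of weights of the block
`GX B B'` of `Wc G 2`. Proof as for `S_NWX`: the weights of `GX B B'` are induced (or equal, if
`N_Γ(Q) = N_M(Q)`) from products of a weight of `B` and a weight of `B'`, uniquely up to conjugation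
(the two factors are distinguished by their blocks). -/
def S_NGX : Prop := ∀ (G : Type) [Group G] [Fintype G] (p : ℕ) [Fact p.Prime], p ≠ 2 →
  ∀ O : ValuationSubring ℂ, (p : ℂ) ∈ O.nonunits → ∀ B B' : Set (G → ℂ), IsBlock O B →
  IsBlock O B' → B ≠ B' → nW p O (GX B B') = nW p O B * nW p O B'

/-- JOB DZB (`t_DZB : S_SECT → S_MMX → S_DZB`). Blocks with a character of defect zero. Proof. Let
`θ ∈ B` with `|G| / θ 1 ∉ O.nonunits`. The class function `c x = |G|⁻¹ * θ 1 * θ x⁻¹` has values in `O`
(`|G| / θ 1` is an algebraic integer and a unit of `O`), `Om c θ = 1`, `Om c χ = 0` for the other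
irreducible `χ`, so `B = {θ}` and `blockCoeff B = c` (`red_Om`, see the docstring of `S_DZV`). So
`lB p B = 1` (`θ 1 ≠ 0`). `(⊥, θ)` (on the normaliser `⊤` of `⊥`) is a weight of `B`, and the only one
with `Q = ⊥`: for another one, `φ` on the normaliser `⊤` has the central character of `θ` modulo
`O.nonunits`, so `φ ∈ B`. If `(Q, φ)` is a weight with `Q ≠ ⊥`: as `Om (blockCoeff B) θ = 1` and `φ` is
in a block which induces `B`, `∑_x c x * (∑_{y ∈ N_G(Q), y ~ x} φ y / φ 1)` over the classes is a unit, so
`Om (c restricted to N_G(Q)) φ ∉ O.nonunits`; `Q` is normal in `N_G(Q)`, so (see `lam_zero`,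
`rs_conv` in `Q176.DC.BRD`) there is `x ∈ C_G(Q)` with `c x ∉ O.nonunits`. By `S_MMX` `Q` is conjugate
into the defect group of `B`, which is trivial: `c x ∉ O.nonunits` and `omega θ x ∉ O.nonunits` imply
that `θ x * θ x⁻¹ / |C_G(x)|` is a unit, and `θ x / |R|` is an algebraic integer for every
`p`-subgroup `R` of `C_G(x)` (see `S_POS` in `Q17.AM.Stm`). -/
def S_DZB : Prop := ∀ (G : Type) [Group G] [Fintype G] (p : ℕ) [Fact p.Prime]
  (O : ValuationSubring ℂ), (p : ℂ) ∈ O.nonunits → ∀ B : Set (G → ℂ), IsBlock O B →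
  ¬ Pos O B → lB p B = 1 ∧ nW p O B = 1

end Pool.Agent.Q17.AM
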