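import Mathlib

/-!
# Congruences for powers
-/

set_option autoImplicit false

namespace Pool.Agent.Q17.AM

lemma pow_sub_dvd {R : Type} [CommRing R] {r j : ℕ} {a b : R} (hj : 1 ≤ j)
    (h : (r : R) ^ j ∣ a - b) : (r : R) ^ (j + 1) ∣ a ^ r - b ^ r := by
  have h1 : (r : R) ∣ a - b := (dvd_pow_self _ (by omega)).trans h
  have h2 := dvd_geom_sum₂_self h1
  rw [← geom_sum₂_mul, pow_succ']
  exact mul_dvd_mul h2 h

/-- the step for numbers -/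
lemma step_int {r j : ℕ} {a b a' b' c : ℤ} (hj : 1 ≤ j) (hc : (r : ℤ) ∣ c + 1)
    (ha : (r : ℤ) * a' = a ^ r + c * a) (hb : (r : ℤ) * b' = b ^ r + c * b)
    (h : (r : ℤ) ^ j ∣ a - b) (h' : (r : ℤ) ^ j ∣ a' - b') : (r : ℤ) ^ (j + 1) ∣ a - b := by
  have h1 := pow_sub_dvd hj h
  have h2 : (r : ℤ) ^ (j + 1) ∣ (r : ℤ) * (a' - b') := by
    rw [pow_succ']
    exact mul_dvd_mul_left _ h'
  have h3 : (r : ℤ) ^ (j + 1) ∣ c * (a - b) := by
    have h4 : c * (a - b) = (r : ℤ) * (a' - b') - (a ^ r - b ^ r) := by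
      rw [mul_sub, mul_sub, ha, hb]
      ring
    rw [h4]
    exact dvd_sub h2 h1
  have h5 : IsCoprime ((r : ℤ) ^ (j + 1)) c := by
    refine IsCoprime.pow_left ?_
    obtain ⟨k, hk⟩ := hc
    refine ⟨k, -1, ?_⟩
    rw [mul_comm k, ← hk]
    ring
  exact h5.dvd_of_dvd_mul_left h3

/-- divisible by all powers -/
lemma zero_of_dvd {r : ℕ} (hr : 2 ≤ r) {a : ℤ} (h : ∀ j, 1 ≤ j → (r : ℤ) ^ j ∣ a) : a = 0 := by
  by_contra ha
  have h1 := h (a.natAbs + 1) (by omega)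
  have h2 := Int.natAbs_dvd_natAbs.mpr h1
  rw [Int.natAbs_pow, Int.natAbs_natCast] at h2
  have h3 := Nat.le_of_dvd (Int.natAbs_pos.mpr ha) h2
  have h4 : a.natAbs + 1 < r ^ (a.natAbs + 1) := Nat.lt_pow_self (by omega)
  omega

end Pool.Agent.Q17.AM
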