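import Pool.Agent.Q17.AM.Stm
import Pool.Agent.Q17.DC.Stm3

/-!
# Further statements of project AM
-/

set_option autoImplicit false

open scoped Classical

noncomputable section

namespace Pool.Agent.Q17.AM

open Pool.Agent.H254R3.IN
open Pool.Agent.Q17.WR
open Pool.Agent.Q18.KRX (krSum)
open Pool.Agent.Y63.AWC (numDefectZero)

/-- JOB KRY. The Knörr-Robinson sum and the number of characters of defect zero of `Wc G r`, for all
primes `r` (`r = p` included). Hypotheses of the theorem to be proved: `t_KRY : S_LNK → S_RED →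
S_TRF → S_COC → S_ZED → S_KRY` (all in `Q17.WR`; `kr_wr` in `Q17.WR.Fin` is the first formula with
`WP`). Proof. (1) `kr_wr`: `r * krSum (Wc G r) = WP p (Cy r) (Cy r) (krSum G)`. The subgroups of `Cy r`
are `⊥` and `⊤`. The chain `τ = ∅` contributes the sum over the `α : Z2 → Cy r` (`r ^ 2` of them by
`S_LNK`: all pairs commute) of `x ^ r` for `α` trivial (`norb (Cy r) ⊥ = r`) and of `x` for the
`r ^ 2 - 1` others (`norb (Cy r) ⊤ = 1`). For `p = r` there is one more chain `τ = {⊤}`, with the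
contribution `- r ^ 2 * x`; for `p ≠ r` there is none. (2) `S_ZED`: the sum over
`f : Cy r → DZt p G`; the stabiliser `Sf f` is `⊥` if `f` is not constant, with one character (of
defect zero), and `⊤` if `f` is constant; the cyclic group of order `r` has `r` irreducible
characters (all of degree one), they are of defect zero for `p ≠ r` and not for `p = r`
(`defectZero_normal` in `Y63.KR.Limit`). -/
def S_KRY : Prop := ∀ (p r : ℕ) [Fact p.Prime] [Fact r.Prime] (G : Type) [Group G] [Finite G],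
  (r : ℤ) * krSum p (Wc G r) = krSum p G ^ r +
    (if p = r then -1 else (r : ℤ) ^ 2 - 1) * krSum p G ∧
  (r : ℤ) * (numDefectZero p (Wc G r) : ℤ) = (numDefectZero p G : ℤ) ^ r +
    (if p = r then -1 else (r : ℤ) ^ 2 - 1) * (numDefectZero p G : ℤ)

/-- the characters of `Wc G 2` induced from `χ ⊗ χ'`, `χ ∈ X`, `χ' ∈ Y` -/
def GX {G : Type} [Group G] (X Y : Set (G → ℂ)) : Set (Wc G 2 → ℂ) :=
  {χ | ∃ f : Cy 2 → G → ℂ, f 1 ∈ X ∧ f (Multiplicative.ofAdd 1) ∈ Y ∧ χ = nch f}

/-- JOB GBL (uses `S_CLS`, `S_CCL`, `S_MMX`: `t_GBL : S_CLS → S_CCL → S_MMX → S_GBL`). The block of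
`Wc G 2` over two different blocks `B`, `B'`. Let `a` be the element of order `2` of `Cy 2`, write
`x = (x₁, x₂)` for `x.right = 1`, `x₁ = x.left 1`, `x₂ = x.left a`. Proof. (1) The members are irreducible
(`f` is not constant as two blocks are disjoint), with congruent central characters:
`omega χ x = 0` for `x.right ≠ 1`, and
`omega χ x = (n / 2) (omega χ₁ x₁ * omega χ₂ x₂ + omega χ₂ x₁ * omega χ₁ x₂)` otherwise (`2` is a unit of
`O`). Conversely let `χ ∈ Irr` be congruent to a member; the class function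
`E x = e x₁ * e' x₂ + e' x₁ * e x₂` for `x.right = 1` (`e`, `e'` the `blockCoeff` of `B`, `B'`), `0`
otherwise, has `Om E = 1` on the members of `GX B B'` and `Om E = 0` on all other irreducible
characters (`S_CLS` (3)); use `red_Om`. (2) `blockCoeff (GX B B') = E`. As `Om E χ = 1` there is an `x`
with `E x ∉ O.nonunits` and `omega χ x ∉ O.nonunits`, `x.right = 1`. From `E x`: (`e x₁`, `e' x₂`) or
(`e' x₁`, `e x₂`) are both not in `O.nonunits`; in both cases `S_MMX` shows that all `p`-subgroups of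
`C(x₁)` and of `C(x₂)` are conjugate into `D`. From `omega χ x`: some members of `B` or `B'` do not
vanish modulo `O.nonunits` at `x₁`, and at `x₂`, so `D` is conjugate into `C(x₁)` and into `C(x₂)`.
So conjugates of `D` are Sylow `p`-subgroups of `C(x₁)` and of `C(x₂)`, and after conjugation of `x` by
an element of the base group `D` itself. Then `Dw 2 D` is a Sylow `p`-subgroup of the centraliser of
`x` in the base group, which has index `1` or `2` in its centraliser in `Wc G 2`. -/
def S_GBL : Prop := ∀ (G : Type) [Group G] [Fintype G] (p : ℕ) [Fact p.Prime], p ≠ 2 →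
  ∀ O : ValuationSubring ℂ, (p : ℂ) ∈ O.nonunits → ∀ B B' : Set (G → ℂ), IsBlock O B →
  IsBlock O B' → B ≠ B' → ∀ D : Subgroup G, IsDefectGroup p O B D → IsDefectGroup p O B' D →
  IsBlock O (GX B B') ∧ IsDefectGroup p O (GX B B') (Dw 2 D)

/-- JOB GCO (uses `S_CLS`, `S_CCL`, `S_GBL`: `t_GCO : S_CLS → S_CCL → S_GBL → S_GCO`). The Brauer
correspondent of `GX B B'`; `b ≠ b'` as `B ≠ B'` (a character of `b` determines the central character
of `B`). The same proof as for `S_COR` in `Q17.AM.Stm`: for `x.right ≠ 1` all terms vanish, for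
`x.right = 1` the sum over the elements of the base group conjugate to `x` is
`(n / 2) (c x₁ * c' x₂ + c' x₁ * c x₂)`, `c x` the sum over the `y ∈ NN D` conjugate to `x` of
`f 1 y / f 1 1`, congruent to the central character of `B` at `x`, and `c'` the same for `B'`. -/
def S_GCO : Prop := ∀ (G : Type) [Group G] [Fintype G] (p : ℕ) [Fact p.Prime], p ≠ 2 →
  ∀ O : ValuationSubring ℂ, (p : ℂ) ∈ O.nonunits → ∀ (B B' : Set (G → ℂ)) (D : Subgroup G)
  (b b' : Set (NN D → ℂ)), IsBlock O B → IsBlock O B' → B ≠ B' → IsDefectGroup p O B D →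
  IsDefectGroup p O B' D → IsBrauerCorrespondent p O D B b → IsBrauerCorrespondent p O D B' b' →
  ∀ e : Wc (NN D) 2 ≃* NN (Dw 2 D), (∀ x, (e x : Wc G 2).right = x.right) →
  (∀ x ω, (e x : Wc G 2).left ω = (x.left ω : G)) →
  IsBrauerCorrespondent p O (Dw 2 D) (GX B B') {θ | (fun x => θ (e x)) ∈ GX b b'}

/-- the complex conjugates of the members of `B` -/
def cj {G : Type} [Group G] (B : Set (G → ℂ)) : Set (G → ℂ) := {χ | (fun g => χ g⁻¹) ∈ B}

/-- JOB CBC. The complex conjugate of a block. Proof. `χ g⁻¹` is the character of the dual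
representation; `omega` of it at `x` is `omega χ x⁻¹` (the classes of `x` and `x⁻¹` have the same
size), `blockCoeff (cj B) x = blockCoeff B x⁻¹`, and `x`, `x⁻¹` have the same centraliser. -/
def S_CBC : Prop := ∀ (G : Type) [Group G] [Fintype G] (p : ℕ) [Fact p.Prime]
  (O : ValuationSubring ℂ), (p : ℂ) ∈ O.nonunits → ∀ B : Set (G → ℂ), IsBlock O B →
  IsBlock O (cj B) ∧ ∀ D : Subgroup G, IsDefectGroup p O B D → IsDefectGroup p O (cj B) D ∧
    ∀ b : Set (NN D → ℂ), IsBrauerCorrespondent p O D B b →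
      IsBrauerCorrespondent p O D (cj B) (cj b)

/-- JOB SYL. Sylow subgroups of `Wc G r` (`|Wc G r| = |G| ^ r * r`, `|Dw r P| = |P| ^ r`). -/
def S_SYL : Prop := ∀ (G : Type) [Group G] [Finite G] (p r : ℕ) [Fact p.Prime] [Fact r.Prime],
  p ≠ r → ∀ P : Sylow p G, ∃ P' : Sylow p (Wc G r), (P' : Subgroup (Wc G r)) = Dw r P

/-- residues modulo `p`, up to sign -/
abbrev Cp (p : ℕ) [Fact p.Prime] : Type := (ZMod p)ˣ ⧸ Subgroup.zpowers (-1 : (ZMod p)ˣ)

/-- the class of the natural number `n` (`1` if `p` divides `n`) -/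
def cls (p : ℕ) [Fact p.Prime] (n : ℕ) : Cp p :=
  if h : (n : ZMod p) ≠ 0 then (Units.mk0 (n : ZMod p) h : (ZMod p)ˣ) else 1

/-- the class of the degree of `χ` -/
def dcl (p : ℕ) [Fact p.Prime] {G : Type} [Group G] (χ : G → ℂ) : Cp p :=
  if h : ∃ n : ℕ, (n : ℂ) = χ 1 then cls p h.choose else 1

/-- the sum of the classes of the degrees -/
def DG (p : ℕ) [Fact p.Prime] {G : Type} [Group G] (X : Set (G → ℂ)) : MonoidAlgebra ℤ (Cp p) :=
  ∑ᶠ χ : X, MonoidAlgebra.of ℤ (Cp p) (dcl p χ.1)

/-- the irreducible characters of degree prime to `p` -/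
def Ip (p : ℕ) (G : Type) [Group G] : Set (G → ℂ) :=
  {χ | IsIrr χ ∧ ∃ n : ℕ, (n : ℂ) = χ 1 ∧ ¬ p ∣ n}

/-- JOB DEG (uses `S_CLS`). The degrees of the members of `LX (Ip p G)` modulo `p`, up to sign. Proof.
`nch f 1 = r ∏ f ω 1` and `cch θ l 1 = θ 1 ^ r`, so `LX (Ip p G) = Ip p (Wc G r)`. The `f` not constant
with values in `X = Ip p G` form orbits of size `r` under `Cy r`, so by `S_CLS` the `nch f` contribute
`(1 / r) ∑_{f not constant} [r] * ∏ [f ω 1] = (1 / r) [r] * (D ^ r - ψ D)`, `D = DG p X`, where `ψ` is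
induced by the `r`-th power map of `Cp p`, and the `cch θ l` contribute `r * ψ D` (there are `r`
homomorphisms `l`). -/
def S_DEG : Prop := ∀ (G : Type) [Group G] [Fintype G] (p r : ℕ) [Fact p.Prime] [Fact r.Prime],
  p ≠ r → LX (r := r) (Ip p G) = Ip p (Wc G r) ∧
  (r : ℤ) • DG p (Ip p (Wc G r)) = MonoidAlgebra.of ℤ (Cp p) (cls p r) *
      (DG p (Ip p G) ^ r - MonoidAlgebra.mapDomain (fun c : Cp p => c ^ r) (DG p (Ip p G))) +
    ((r : ℤ) ^ 2) • MonoidAlgebra.mapDomain (fun c : Cp p => c ^ r) (DG p (Ip p G))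

end Pool.Agent.Q17.AM
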