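import Pool.Agent.Q17.AM.Amc
import Pool.Agent.Q17.RB.Stm
import Pool.Agent.Q17.DM.Stm
import Pool.Agent.Q17.WR.Fin2
import Pool.Agent.Q17.DC.All2
import Pool.Agent.Q17.OS.Grp
import Pool.Agent.Q162.AM.TRC
import Pool.Agent.Q162.AM.CLS
import Pool.Agent.Q162.AM.NUM
import Pool.Agent.Q162.AM.CCL
import Pool.Agent.Q166.AM.BLK
import Pool.Agent.Q166.AM.POS
import Pool.Agent.Q166.AM.TRN
import Pool.Agent.Q166.AM.COR
import Pool.Agent.Q111.AM.BOT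
import Pool.Agent.Q151.AM.HT
import Pool.Agent.Q151.AM.IZ
import Pool.Agent.Q151.AM.GBL
import Pool.Agent.Q151.AM.GCO
import Pool.Agent.Q151.AM.SYL
import Pool.Agent.Q137.AM.GV
import Pool.Agent.Q26.AM.CBC
import Pool.Agent.Q26.AM.DEG
import Pool.Agent.Q210.RB.FXB
import Pool.Agent.Q210.RB.FXI
import Pool.Agent.Q210.RB.TRA
import Pool.Agent.Q66.RB.Fxc
import Pool.Agent.Q66.RB.Rat
import Pool.Agent.Q261.RB.GCB

/-!
# The parts of projects AM and RB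
-/

set_option autoImplicit false

open scoped Classical

noncomputable section

namespace Pool.Agent.Q17.AM

open Pool.Agent.Q17.WR Pool.Agent.Q17.RB Pool.Agent.Q17.DC

theorem p_zpr : S_ZPR := zpr
theorem p_cls : S_CLS := Pool.Agent.Q162.AM.t_CLS Pool.Agent.Q162.AM.t_TRC zpr
theorem p_num : S_NUM := Pool.Agent.Q162.AM.t_NUM p_cls
theorem p_ccl : S_CCL := Pool.Agent.Q162.AM.t_CCL
theorem p_blk : S_BLK := Pool.Agent.Q166.AM.t_BLK p_cls p_ccl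
theorem p_pos : S_POS := Pool.Agent.Q166.AM.t_POS
theorem p_bot : S_BOT := Pool.Agent.Q111.AM.t_BOT
theorem p_trn : S_TRN := Pool.Agent.Q166.AM.t_TRN
theorem p_cor : S_COR := Pool.Agent.Q166.AM.t_COR p_cls p_ccl p_blk
theorem p_ht : S_HT := Pool.Agent.Q151.AM.t_HT
theorem p_iz : S_IZ := Pool.Agent.Q151.AM.t_IZ p_ht
theorem p_gv : S_GV := Pool.Agent.Q137.AM.t_GV
theorem p_mmx : S_MMX := Pool.Agent.Q17.DC.s_mmx
theorem p_fmt : S_FMT := Pool.Agent.Q17.DC.s_fmt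
theorem p_gbl : S_GBL := Pool.Agent.Q151.AM.t_GBL p_cls p_ccl p_mmx
theorem p_gco : S_GCO := Pool.Agent.Q151.AM.t_GCO p_cls p_ccl p_gbl
theorem p_cbc : S_CBC := Pool.Agent.Q26.AM.t_CBC
theorem p_syl : S_SYL := Pool.Agent.Q151.AM.t_SYL
theorem p_deg : S_DEG := Pool.Agent.Q26.AM.t_DEG p_cls
theorem p_amc : S_AMC := t_AMC p_cls p_num p_blk p_pos p_bot p_trn p_cor p_iz p_gv
theorem p_fxi : S_FXI := Pool.Agent.Q210.RB.t_FXI zpr
theorem p_fxb : S_FXB := Pool.Agent.Q210.RB.t_FXB zpr p_fxi p_mmx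
theorem p_tra : S_TRA := Pool.Agent.Q210.RB.t_TRA
theorem p_fxc : S_FXC := Pool.Agent.Q66.RB.t_FXC zpr p_fxi p_fxb
theorem p_gcb : S_GCB := Pool.Agent.Q261.RB.t_GCB
theorem p_rat : S_RAT := Pool.Agent.Q66.RB.t_RAT p_fxi p_fxb p_tra p_fxc p_gcb p_ht p_fmt

end Pool.Agent.Q17.AM
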