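import Pool.Agent.Q17.AM.Stm4

/-!
# The Alperin-McKay equality modulo `r` for a class of blocks
-/

set_option autoImplicit false

open scoped Classical

noncomputable section

namespace Pool.Agent.Q17.AM

open Pool.Agent.H254R3.IN
open Pool.Agent.Q17.WR
open Pool.Agent.Q17.DC

/-- JOB AMC (`t_AMC : S_CLS → S_NUM → S_BLK → S_POS → S_BOT → S_TRN → S_COR → S_IZ → S_GV →
S_AMC`). `S_AMR` for a class `C` of blocks and defect groups which is closed under the wreath product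
with the cyclic group of order `r`. The proof is the one of `S_AMR`: all data in the induction are in
the class. `S_AMR` is the case of the class of all blocks. -/
def S_AMC : Prop := ∀ (p r : ℕ) [Fact p.Prime] [Fact r.Prime], p ≠ r →
  ∀ O : ValuationSubring ℂ, (p : ℂ) ∈ O.nonunits → ∀ S : Set (ℂ ≃+* ℂ),
  (∀ s ∈ S, ∀ u : ℕ, s ^ u ∈ S) →
  ∀ C : ∀ (G : Type) [Group G], Set (G → ℂ) → Subgroup G → Prop,
  (∀ (G : Type) [Group G] [Fintype G] (B : Set (G → ℂ)) (D : Subgroup G), IsBlock O B →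
    IsDefectGroup p O B D → D ≠ ⊥ → C G B D → C (Wc G r) (LX (r := r) B) (Dw r D)) →
  (∀ (G : Type) [Group G] [Fintype G] (B : Set (G → ℂ)) (D : Subgroup G) (b : Set (NN D → ℂ)),
    Dt p O B D b → C G B D → ∀ s ∈ S, St s B → St s b → Rp s r (Nat.card G) →
    (r : ℤ) ∣ ((Fxd (Irr0 p D B) s).ncard : ℤ) -
      ((Fxd (Irr0 p (D.subgroupOf (NN D)) b) s).ncard : ℤ)) →
  ∀ (G : Type) [Group G] [Fintype G] (B : Set (G → ℂ)) (D : Subgroup G) (b : Set (NN D → ℂ)),
    Dt p O B D b → C G B D → ∀ s ∈ S, St s B → St s b → Rp s r (Nat.card G) →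
    (Fxd (Irr0 p D B) s).ncard = (Fxd (Irr0 p (D.subgroupOf (NN D)) b) s).ncard

lemma amr_of_amc (h : S_AMC) : S_AMR := by
  intro p r _ _ hpr O hO S hS h1 G _ _ B D b hd s hs h2 h3 h4
  exact h p r hpr O hO S hS (fun _ _ _ _ => True) (fun _ _ _ _ _ _ _ _ _ => trivial)
    (fun G _ _ B D b hd _ s hs h2 h3 h4 => h1 G B D b hd s hs h2 h3 h4) G B D b hd trivial s hs
    h2 h3 h4

end Pool.Agent.Q17.AM
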