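import Pool.Agent.Q137.AM.AMR
import Pool.Agent.Q17.AM.Stm5

/-!
# The proof of `S_AMC` (by helper137, with a class of blocks added)
-/

set_option autoImplicit false

open scoped Classical

noncomputable section

namespace Pool.Agent.Q17.AM

open Pool.Agent.H254R3.IN hiding NN
open Pool.Agent.Q137.AM

theorem t_AMC : S_CLS → S_NUM → S_BLK → S_POS → S_BOT → S_TRN → S_COR → S_IZ → S_GV → S_AMC := by
  intro _ hNUM hBLK hPOS hBOT hTRN hCOR hIZ hGV p r _ hrF hpr O hO S hS C hC H1
  have hr := hrF.out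
  suffices hall : ∀ j : ℕ, 1 ≤ j → ∀ (G : Type) [Group G] [Fintype G] (B : Set (G → ℂ))
      (D : Subgroup G) (b : Set (NN D → ℂ)), Dt p O B D b → C G B D → ∀ s ∈ S, St s B → St s b →
      Rp s r (Nat.card G) → (r : ℤ) ^ j ∣ ((Fxd (Irr0 p D B) s).ncard : ℤ) -
        ((Fxd (Irr0 p (D.subgroupOf (NN D)) b) s).ncard : ℤ) by
    intro G _ _ B D b hDt hCG s hs h1 h2 h3
    have h4 := zero_of_dvd hr.two_le fun j hj => hall j hj G B D b hDt hCG s hs h1 h2 h3
    have h5 : ((Fxd (Irr0 p D B) s).ncard : ℤ) =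
      ((Fxd (Irr0 p (D.subgroupOf (NN D)) b) s).ncard : ℤ) := by linarith
    exact_mod_cast h5
  intro j hj
  induction j, hj using Nat.le_induction with
  | base =>
      intro G _ _ B D b hDt hCG s hs h1 h2 h3
      rw [pow_one]
      exact H1 G B D b hDt hCG s hs h1 h2 h3
  | succ j hj IH =>
      intro G _ _ B D b hDt hCG s hs hsB hsb hRp
      obtain ⟨hB, hD, hb⟩ := hDt
      by_cases hbot : D = ⊥
      · subst hbot
        rw [bot_case hBOT hO hB hb s, sub_self]
        exact dvd_zero _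
      -- the main case
      have hposB : Pos O B := hPOS G p O hO B hB D hD hbot
      have hDN : D.subgroupOf (NN D) ≠ ⊥ := by
        rw [Ne, Subgroup.subgroupOf_eq_bot]
        intro hdis
        exact hbot (hdis le_rfl Subgroup.le_normalizer |> le_bot_iff.1)
      have hposb : Pos O b := hPOS (NN D) p O hO b hb.1 _ hb.2.1 hDN
      have hn : 0 < Nat.card G := Nat.card_pos
      obtain ⟨v, hv⟩ := hGV.2.2 s r (Nat.card G) hn hRp
      have hRp0 : Rp (s ^ v) r (Nat.card G) := by
        obtain ⟨i, hi, hi'⟩ := hRp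
        refine ⟨i, hi, fun ζ hζ => ?_⟩
        rw [← pow_mul, mul_comm]
        exact tr_mul hi' v ζ hζ
      have hfin : Finite (Wc G r) := Finite.of_equiv _ SemidirectProduct.equivProd.symm
      let _ : Fintype (Wc G r) := Fintype.ofFinite _
      have hN : 0 < Nat.card (Wc G r) := Nat.card_pos
      have hcyc : Nat.card (Cy r) = r := by
        rw [Nat.card_congr (Multiplicative.toAdd : Cy r ≃ ZMod r), Nat.card_zmod]
      have hdvd : Nat.card G ∣ Nat.card (Wc G r) := by
        rw [SemidirectProduct.card, Nat.card_fun, hcyc]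
        exact (dvd_pow_self _ hr.ne_zero).mul_right _
      obtain ⟨u, hu, hRp1⟩ := hGV.2.1 (s ^ v) r (Nat.card G) (Nat.card (Wc G r)) hN hdvd hRp0
      obtain ⟨t, ht⟩ : ∃ t, t = (s ^ v) ^ u := ⟨_, rfl⟩
      rw [← ht] at hu hRp1
      have htS : t ∈ S := by rw [ht]; exact hS _ (hS s hs v) u
      have htB : St t B := by rw [ht, ← pow_mul]; exact st_pow hsB _
      have htb : St t b := by rw [ht, ← pow_mul]; exact st_pow hsb _
      have htr : ∀ ζ : ℂ, ζ ^ Nat.card G = 1 → (t ^ r) ζ = s ζ := by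
        intro ζ hζ
        rw [agree_pow hu r ζ hζ]
        exact hv ζ hζ
      have hRpt : Rp t r (Nat.card G) := by
        obtain ⟨i, hi, hi'⟩ := hRp1
        refine ⟨i, hi, fun ζ hζ => hi' ζ ?_⟩
        obtain ⟨c, hc⟩ := hdvd
        rw [hc, pow_mul, hζ, one_pow]
      obtain ⟨e, he1, he2⟩ := hTRN G r D
      obtain ⟨hBL, -, hBD⟩ := hBLK G p r hpr O hO B hB hposB
      have hcor := hCOR G p r hpr O hO B D b hB hposB hposb hD hb e he1 he2
      have hst' : St t {θ : NN (Dw r D) → ℂ | (fun x => θ (e x)) ∈ LX (r := r) b} := by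
        intro θ
        exact lx_st htb (fun x => θ (e x))
      have I1 := IH (Wc G r) (LX (r := r) B) (Dw r D) _ ⟨hBL, hBD D hD, hcor⟩ (hC G B D hB hD hbot hCG) t
        htS (lx_st htB) hst' hRp1
      have I0 := IH G B D b ⟨hB, hD, hb⟩ hCG t htS htB htb hRpt
      -- rewrite the left side
      rw [hIZ G p r hpr O hO B D hB hD] at I1
      -- rewrite the right side
      have hDw : ∀ x : Wc (NN D) r, x ∈ Dw r (D.subgroupOf (NN D)) ↔
          e x ∈ (Dw r D).subgroupOf (NN (Dw r D)) := by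
        intro x
        rw [Subgroup.mem_subgroupOf]
        show (x.right = 1 ∧ ∀ ω, x.left ω ∈ D.subgroupOf (NN D)) ↔
          ((e x : Wc G r).right = 1 ∧ ∀ ω, (e x : Wc G r).left ω ∈ D)
        rw [he1]
        refine and_congr_right fun _ => forall_congr' fun ω => ?_
        rw [he2, Subgroup.mem_subgroupOf]
      rw [fxd_tr p e _ _ hDw (LX (r := r) b) t, hIZ (NN D) p r hpr O hO b _ hb.1 hb.2.1] at I1
      have N1 := hNUM G r (Irr0 p D B) (irr0_irr hB p D) t (irr0_st htB p D)
      have N2 := hNUM (NN D) r (Irr0 p (D.subgroupOf (NN D)) b) (irr0_irr hb.1 p _) t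
        (irr0_st htb p _)
      rw [fxd_agree hGV (irr0_irr hB p D) htr] at N1
      rw [fxd_agree hGV (irr0_irr hb.1 p _) (fun ζ hζ => htr ζ (by
        obtain ⟨c, hc⟩ := Subgroup.card_subgroup_dvd_card (NN D)
        rw [hc, pow_mul, hζ, one_pow]))] at N2
      obtain ⟨c, hc⟩ : ∃ c : ℤ, c = if ∀ ζ : ℂ, ζ ^ r = 1 → t ζ = ζ then (r : ℤ) * (r - 1) else 0 :=
        ⟨_, rfl⟩
      have hcr : (r : ℤ) ∣ c := by
        rw [hc]
        split_ifs
        · exact dvd_mul_right _ _
        · exact dvd_zero _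
      have hc2 : ∀ y : ℤ, (if ∀ ζ : ℂ, ζ ^ r = 1 → t ζ = ζ then (r : ℤ) * (r - 1) * y else 0) =
          c * y := by
        intro y
        rw [hc]
        split_ifs
        · rfl
        · rw [zero_mul]
      rw [hc2] at N1 N2
      exact num_step hj hcr N1 N2 I0 I1

end Pool.Agent.Q17.AM
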