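import Pool.Agent.Q17.AM.Mgd
import Pool.Agent.Q111.OS.PBK

/-!
# Degrees modulo `p` up to sign: direct products with groups of order prime to `p`
-/

set_option autoImplicit false

open scoped Classical

noncomputable section

namespace Pool.Agent.Q17.AM

open Pool.Agent.H254R3.IN hiding NN
open Pool.Agent.Q17.WR Pool.Agent.Q17.RB
open Pool.Agent.Q237.AM
open Pool.Agent.Q111.OS (tp exists_tp irr_tp tp_inj)

section

variable {p : ℕ} [Fact p.Prime] {G H : Type} [Group G] [Fintype G] [Group H] [Fintype H]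

lemma ip_tp {χ : G → ℂ} {ψ : H → ℂ} (h1 : IsIrr χ) (h2 : IsIrr ψ) :
    tp χ ψ ∈ Ip p (G × H) ↔ χ ∈ Ip p G ∧ ψ ∈ Ip p H := by
  obtain ⟨a, -, ha⟩ := h1.deg
  obtain ⟨b, -, hb⟩ := h2.deg
  have hab : ((a * b : ℕ) : ℂ) = tp χ ψ 1 := by
    rw [Nat.cast_mul, ha, hb]
    rfl
  have hp : p.Prime := Fact.out
  constructor
  · rintro ⟨-, n, hn, hpn⟩
    have h3 : n = a * b := by exact_mod_cast hn.trans hab.symm
    rw [h3, hp.dvd_mul, not_or] at hpn
    exact ⟨⟨h1, a, ha, hpn.1⟩, ⟨h2, b, hb, hpn.2⟩⟩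
  · rintro ⟨⟨-, a', ha', hpa⟩, ⟨-, b', hb', hpb⟩⟩
    have h3 : a' = a := by exact_mod_cast ha'.trans ha.symm
    have h4 : b' = b := by exact_mod_cast hb'.trans hb.symm
    subst h3 h4
    exact ⟨irr_tp h1 h2, a' * b', hab, fun h => (hp.dvd_mul.mp h).elim hpa hpb⟩

lemma dcl_tp {χ : G → ℂ} {ψ : H → ℂ} (h1 : χ ∈ Ip p G) (h2 : ψ ∈ Ip p H) :
    dcl p (tp χ ψ) = dcl p χ * dcl p ψ := by
  obtain ⟨-, a, ha, hpa⟩ := h1
  obtain ⟨-, b, hb, hpb⟩ := h2
  have hab : ((a * b : ℕ) : ℂ) = tp χ ψ 1 := by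
    rw [Nat.cast_mul, ha, hb]
    rfl
  rw [Pool.Agent.Q26.AM.dcl_eq ha, Pool.Agent.Q26.AM.dcl_eq hb, Pool.Agent.Q26.AM.dcl_eq hab,
    Pool.Agent.Q26.AM.cls_mul hpa hpb]

/-- direct products -/
theorem DG_prod : DG p (Ip p (G × H)) = DG p (Ip p G) * DG p (Ip p H) := by
  have hG : (Ip p G).Finite := ip_fin p
  have hH : (Ip p H).Finite := ip_fin p
  rw [Pool.Agent.Q26.AM.DG_eq (X := Ip p G) (S := hG.toFinset) (fun χ => hG.mem_toFinset),
    Pool.Agent.Q26.AM.DG_eq (X := Ip p H) (S := hH.toFinset) (fun χ => hH.mem_toFinset),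
    Finset.sum_mul_sum, ← Finset.sum_product']
  rw [Pool.Agent.Q26.AM.DG_eq (X := Ip p (G × H))
    (S := (hG.toFinset ×ˢ hH.toFinset).image fun x => tp x.1 x.2)]
  · rw [Finset.sum_image]
    · refine Finset.sum_congr rfl fun x hx => ?_
      rw [Finset.mem_product, hG.mem_toFinset, hH.mem_toFinset] at hx
      rw [dcl_tp hx.1 hx.2, map_mul]
    · intro x hx y hy h
      rw [Finset.mem_coe, Finset.mem_product, hG.mem_toFinset, hH.mem_toFinset] at hx hy
      obtain ⟨h1, h2⟩ := tp_inj hx.1.1 hy.1.1 hx.2.1 hy.2.1 h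
      exact Prod.ext h1 h2
  · intro θ
    rw [Finset.mem_image]
    constructor
    · rintro ⟨x, hx, rfl⟩
      rw [Finset.mem_product, hG.mem_toFinset, hH.mem_toFinset] at hx
      exact (ip_tp hx.1.1 hx.2.1).mpr hx
    · intro hθ
      obtain ⟨χ, ψ, h1, h2, rfl⟩ := exists_tp hθ.1
      refine ⟨(χ, ψ), ?_, rfl⟩
      rw [Finset.mem_product, hG.mem_toFinset, hH.mem_toFinset]
      exact (ip_tp h1 h2).mp hθ

end

/-- the normaliser of `D × 1` -/
def nnProd {G H : Type} [Group G] [Group H] (D : Subgroup G) :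
    NN (D.prod (⊥ : Subgroup H)) ≃* NN D × H where
  toFun x := (⟨x.1.1, by
    have h := x.2
    rw [Subgroup.mem_normalizer_iff] at h ⊢
    intro g
    have h1 := h (g, 1)
    simp only [Subgroup.mem_prod, Subgroup.mem_bot, Prod.fst_mul, Prod.snd_mul, Prod.fst_inv,
      Prod.snd_inv, mul_one, mul_inv_cancel, and_true] at h1
    exact h1⟩, x.1.2)
  invFun x := ⟨(x.1.1, x.2), by
    have h := x.1.2
    rw [Subgroup.mem_normalizer_iff] at h ⊢
    intro g
    have h1 := h g.1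
    simp only [Subgroup.mem_prod, Subgroup.mem_bot, Prod.fst_mul, Prod.snd_mul, Prod.fst_inv,
      Prod.snd_inv]
    rw [h1]
    refine and_congr_right fun _ => ?_
    constructor
    · intro h2
      rw [h2, mul_one, mul_inv_cancel]
    · intro h2
      have h3 : g.2 = x.2⁻¹ * (x.2 * g.2 * x.2⁻¹) * x.2 := by group
      rw [h3, h2, mul_one, inv_mul_cancel]⟩
  left_inv x := rfl
  right_inv x := rfl
  map_mul' x y := rfl

/-- a Sylow subgroup of `G × H`, `H` of order prime to `p` -/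
lemma syl_prod {p : ℕ} [Fact p.Prime] {G H : Type} [Group G] [Finite G] [Group H] [Finite H]
    (hH : ¬ p ∣ Nat.card H) (P : Sylow p G) :
    ∃ P' : Sylow p (G × H), (P' : Subgroup (G × H)) = (P : Subgroup G).prod ⊥ := by
  have hp : p.Prime := Fact.out
  have hc : Nat.card ((P : Subgroup G).prod (⊥ : Subgroup H)) = Nat.card P := by
    rw [Nat.card_congr (Subgroup.prodEquiv (P : Subgroup G) (⊥ : Subgroup H)).toEquiv,
      Nat.card_prod, Subgroup.card_bot, mul_one]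
  have h2 : Nat.card ((P : Subgroup G).prod (⊥ : Subgroup H)) =
      p ^ (Nat.card (G × H)).factorization p := by
    rw [hc, Sylow.card_eq_multiplicity, Nat.card_prod,
      Nat.factorization_mul Nat.card_pos.ne' Nat.card_pos.ne', Finsupp.add_apply,
      Nat.factorization_eq_zero_of_not_dvd hH, add_zero]
  exact ⟨Sylow.ofCard _ h2, rfl⟩

end Pool.Agent.Q17.AM
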