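import Pool.Agent.Q17.AM.Dpm
import Pool.Agent.Q18.CF.Lin

/-!
# Degrees modulo `p` up to sign: one residue class is enough
-/

set_option autoImplicit false

open scoped Classical

noncomputable section

namespace Pool.Agent.Q17.AM

open Pool.Agent.H254R3.IN hiding NN
open Pool.Agent.Q17.WR Pool.Agent.Q17.RB
open Pool.Agent.Q237.AM

/-- the combinatorial part -/
theorem full_of_step {C : Type} [Group C] [Finite C] (S : Set (C → ℤ))
    (step : ∀ δ ∈ S, ∀ (c : C) (M : ℤ), ∃ δ' ∈ S, ∃ x y r : ℤ, 0 < x ∧ 0 < y ∧ M * x < y ∧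
      ∀ k, r * δ' k = y * δ (k * c⁻¹) + x * δ k)
    (δ : C → ℤ) (hδ : δ ∈ S) (hne : δ ≠ 0) : ∃ δ' ∈ S, ∀ k, δ' k ≠ 0 := by
  have : Fintype C := Fintype.ofFinite C
  have key : ∀ T : Finset C, ∃ δ' ∈ S, (∃ k, δ' k ≠ 0) ∧ ∀ k ∈ T, δ' k ≠ 0 := by
    intro T
    induction T using Finset.induction_on with
    | empty =>
      refine ⟨δ, hδ, ?_, fun k hk => absurd hk (Finset.notMem_empty k)⟩
      by_contra h
      push Not at h
      exact hne (funext h)
    | insert k₁ T hk₁ ih =>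
      obtain ⟨δ, hδ, ⟨k', hk'⟩, hT⟩ := ih
      by_cases h1 : δ k₁ = 0
      · obtain ⟨δ', hδ', x, y, r, hx, hy, hM, hk⟩ :=
          step δ hδ (k'⁻¹ * k₁) (∑ k, |δ k|) 
        have hne1 : δ' k₁ ≠ 0 := by
          intro h2
          have h3 := hk k₁
          rw [h1, h2, mul_zero, mul_zero, add_zero] at h3
          have h4 : k₁ * (k'⁻¹ * k₁)⁻¹ = k' := by group
          rw [h4] at h3
          exact (mul_ne_zero hy.ne' hk') h3.symm
        refine ⟨δ', hδ', ⟨k₁, hne1⟩, fun k hkT => ?_⟩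
        rcases Finset.mem_insert.mp hkT with rfl | hkT
        · exact hne1
        · intro h2
          have h3 := hk k
          rw [h2, mul_zero] at h3
          have h5 : |δ k| ≤ ∑ k, |δ k| :=
            Finset.single_le_sum (f := fun k => |δ k|) (fun _ _ => abs_nonneg _)
              (Finset.mem_univ k)
          have h6 : |x * δ k| < y := by
            rw [abs_mul, abs_of_pos hx]
            calc x * |δ k| ≤ x * ∑ k, |δ k| := mul_le_mul_of_nonneg_left h5 hx.le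
              _ = (∑ k, |δ k|) * x := mul_comm _ _
              _ < y := hM
          by_cases h7 : δ (k * (k'⁻¹ * k₁)⁻¹) = 0
          · rw [h7, mul_zero, zero_add] at h3
            exact (mul_ne_zero hx.ne' (hT k hkT)) h3.symm
          · have h8 : y ≤ |y * δ (k * (k'⁻¹ * k₁)⁻¹)| := by
              rw [abs_mul, abs_of_pos hy]
              exact le_mul_of_one_le_right hy.le (Int.one_le_abs h7)
            have h9 : y * δ (k * (k'⁻¹ * k₁)⁻¹) = -(x * δ k) := by linarith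
            rw [h9, abs_neg] at h8
            exact absurd h6 (not_lt.mpr h8)
      · exact ⟨δ, hδ, ⟨k₁, h1⟩, fun k hk => by
          rcases Finset.mem_insert.mp hk with rfl | hk
          · exact h1
          · exact hT k hk⟩
  obtain ⟨δ', h1, -, h2⟩ := key Finset.univ
  exact ⟨δ', h1, fun k => h2 k (Finset.mem_univ k)⟩

/-- growth -/
lemma growth (a : ℕ) (ha : 2 ≤ a) (M : ℕ) : ∃ N : ℕ, ∀ r : ℕ, N ≤ r →
    (M : ℤ) * ((r : ℤ) ^ 2 * a) < (a : ℤ) ^ r - a := by
  have h1 : Filter.Tendsto (fun n : ℕ => (n : ℝ) ^ 2 / (2 : ℝ) ^ n) Filter.atTop (nhds 0) :=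
    tendsto_pow_const_div_const_pow_of_one_lt 2 (by norm_num)
  have h2 : (0 : ℝ) < 1 / (2 * (M + 1)) := by positivity
  obtain ⟨N, hN⟩ := Filter.eventually_atTop.mp (h1.eventually (gt_mem_nhds h2))
  refine ⟨max N 2, fun r hr => ?_⟩
  have h3 := hN r ((le_max_left _ _).trans hr)
  have hr2 : 2 ≤ r := (le_max_right _ _).trans hr
  rw [div_lt_div_iff₀ (by positivity) (by positivity), one_mul] at h3
  have h4 : r ^ 2 * (2 * (M + 1)) < 2 ^ r := by exact_mod_cast h3
  obtain ⟨q, rfl⟩ : ∃ q, r = q + 1 := ⟨r - 1, by omega⟩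
  have h5 : (q + 1) ^ 2 * (M + 1) < 2 ^ q := by
    have : 2 ^ (q + 1) = 2 * 2 ^ q := by ring
    nlinarith
  have h6 : 2 ^ q ≤ a ^ q := Nat.pow_le_pow_left ha q
  have h7 : (q + 1) ^ 2 * (M + 1) < a ^ q := lt_of_lt_of_le h5 h6
  have h8 : M * (q + 1) ^ 2 + 1 < a ^ q := by nlinarith [Nat.one_le_pow 2 (q + 1) (by omega)]
  have h9 : a * (M * (q + 1) ^ 2 + 1) < a * a ^ q := Nat.mul_lt_mul_of_pos_left h8 (by omega)
  have h10 : ((a * (M * (q + 1) ^ 2 + 1) : ℕ) : ℤ) < ((a * a ^ q : ℕ) : ℤ) := by exact_mod_cast h9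
  push_cast at h10
  have h11 : (a : ℤ) ^ (q + 1) = a * a ^ q := by ring
  rw [h11]
  push_cast
  nlinarith

/-- the characters of an abelian group have degree `1` -/
lemma deg_comm {Q : Type} [Group Q] [IsMulCommutative Q] {χ : Q → ℂ} (h : IsIrr χ) : χ 1 = 1 := by
  obtain ⟨V, _, _, _, ρ, hr, rfl⟩ := h
  rw [Representation.char_one, Representation.IsIrreducible.finrank_eq_one_of_isMulCommutative ρ, Nat.cast_one]

/-- the group of order two -/
lemma DG_two (p : ℕ) [Fact p.Prime] : ∃ a : ℕ, 2 ≤ a ∧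
    DG p (Ip p (Cy 2)) = MonoidAlgebra.single 1 (a : ℤ) := by
  have hp : p.Prime := Fact.out
  have : IsMulCommutative (Cy 2) := ⟨⟨fun a b => mul_comm a b⟩⟩
  have hfin : (Ip p (Cy 2)).Finite := ip_fin p
  have h1 : ¬ p ∣ 1 := fun h => hp.one_lt.ne' (Nat.dvd_one.mp h)
  have hmem : ∀ χ : Cy 2 → ℂ, IsIrr χ → χ ∈ Ip p (Cy 2) := fun χ h =>
    ⟨h, 1, by rw [deg_comm h, Nat.cast_one], h1⟩
  refine ⟨hfin.toFinset.card, ?_, ?_⟩
  · -- two different characters
    have hc : Nat.card (Cy 2 →* ℂˣ) = 2 := by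
      rw [Pool.Agent.Q18.CF.card_lin]
      have e : Abelianization (Cy 2) ≃* Cy 2 := (MulEquiv.symm (Abelianization.equivOfComm))
      rw [Nat.card_congr e.toEquiv, Nat.card_congr Multiplicative.toAdd, Nat.card_zmod]
    have hinj : Function.Injective fun μ : Cy 2 →* ℂˣ =>
        (⟨fun g => ((μ g : ℂˣ) : ℂ), hmem _ (Pool.Agent.Q18.CF.lin_irr μ)⟩ : Ip p (Cy 2)) := by
      intro μ ν h
      ext g
      exact congrFun (congrArg Subtype.val h) g
    have : Finite (Ip p (Cy 2)) := hfin.to_subtype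
    have h2 := Nat.card_le_card_of_injective _ hinj
    rw [hc] at h2
    rwa [Nat.card_coe_set_eq, Set.ncard_eq_toFinset_card _ hfin] at h2
  · rw [Pool.Agent.Q26.AM.DG_eq (X := Ip p (Cy 2)) (S := hfin.toFinset)
      (fun χ => hfin.mem_toFinset)]
    have h2 : ∀ χ ∈ hfin.toFinset, MonoidAlgebra.of ℤ (Cp p) (dcl p χ) = 1 := by
      intro χ hχ
      rw [hfin.mem_toFinset] at hχ
      rw [Pool.Agent.Q26.AM.dcl_eq (n := 1) (by rw [deg_comm hχ.1, Nat.cast_one]),
        Pool.Agent.Q26.AM.cls_one, map_one]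
    rw [Finset.sum_congr rfl h2, Finset.sum_const, nsmul_eq_mul, mul_one]
    rfl

/-- the difference of the numbers of characters of degree in a class -/
def dlt (p : ℕ) [Fact p.Prime] (G : Type) [Group G] (P : Subgroup G) (k : Cp p) : ℤ :=
  (({χ | χ ∈ Ip p G ∧ dcl p χ = k} : Set (G → ℂ)).ncard : ℤ) -
    (({χ | χ ∈ Ip p (NN P) ∧ dcl p χ = k} : Set (NN P → ℂ)).ncard : ℤ)

lemma dlt_eq {p : ℕ} [Fact p.Prime] {G : Type} [Group G] [Fintype G] (P : Subgroup G) (k : Cp p) :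
    dlt p G P k = (DG p (Ip p G) - DG p (Ip p (NN P))).coeff k := by
  have : Fintype (NN P) := Fintype.ofFinite _
  unfold dlt
  rw [MonoidAlgebra.coeff_sub, Finsupp.sub_apply, dg_coeff p (ip_fin p), dg_coeff p (ip_fin p)]

/-- the step -/
theorem dlt_step {p : ℕ} [Fact p.Prime] (hp2 : p ≠ 2) {G : Type} [Group G] [Fintype G]
    (P : Subgroup G) {a : ℕ} (ha : DG p (Ip p (Cy 2)) = MonoidAlgebra.single 1 (a : ℤ)) (r : ℕ)
    [Fact r.Prime] (hr : p ≠ r) (k : Cp p) :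
    (r : ℤ) * dlt p (G × Wc (Cy 2) r) (P.prod ⊥) k =
      ((a : ℤ) ^ r - a) * dlt p G P (k * (cls p r)⁻¹) + ((r : ℤ) ^ 2 * a) * dlt p G P k := by
  have hfw : Finite (Wc (Cy 2) r) := fin_wc (Cy 2) r
  have : Fintype (Wc (Cy 2) r) := Fintype.ofFinite _
  have hfn : Fintype (NN P) := Fintype.ofFinite _
  have hfn' : Fintype (NN (P.prod (⊥ : Subgroup (Wc (Cy 2) r)))) := Fintype.ofFinite _
  have h1 := (p_deg (Cy 2) p r hr).2
  rw [ha, MonoidAlgebra.single_pow, MonoidAlgebra.mapDomain_single, one_pow] at h1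
  have h2 : DG p (Ip p (NN (P.prod (⊥ : Subgroup (Wc (Cy 2) r))))) =
      DG p (Ip p (NN P)) * DG p (Ip p (Wc (Cy 2) r)) := by
    rw [dg_iso p (nnProd P), DG_prod]
  rw [dlt_eq, dlt_eq, dlt_eq, h2, DG_prod, ← sub_mul]
  have h3 : (r : ℤ) * ((DG p (Ip p G) - DG p (Ip p (NN P))) *
      DG p (Ip p (Wc (Cy 2) r))).coeff k = ((DG p (Ip p G) - DG p (Ip p (NN P))) *
      ((r : ℤ) • DG p (Ip p (Wc (Cy 2) r)))).coeff k := by
    rw [mul_smul_comm, MonoidAlgebra.coeff_smul, Finsupp.smul_apply, smul_eq_mul]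
  rw [h3, h1, MonoidAlgebra.of_apply, mul_add, MonoidAlgebra.coeff_add, Finsupp.add_apply,
    MonoidAlgebra.smul_single', ← MonoidAlgebra.single_sub, MonoidAlgebra.single_mul_single,
    MonoidAlgebra.coeff_mul_single_apply, MonoidAlgebra.coeff_mul_single_apply, one_mul, mul_one,
    inv_one, mul_one]
  ring

end Pool.Agent.Q17.AM
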