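import Pool.Agent.Q17.AM.Dpn

/-!
# Degrees modulo `p` up to sign: the theorem
-/

set_option autoImplicit false

open scoped Classical

noncomputable section

namespace Pool.Agent.Q17.AM

open Pool.Agent.H254R3.IN hiding NN
open Pool.Agent.Q17.WR Pool.Agent.Q17.RB
open Pool.Agent.Q237.AM

lemma solv_wc (G : Type) [Group G] [Group.IsSolvable G] (r : ℕ) [Fact r.Prime] : Group.IsSolvable (Wc G r) := by
  have h1 : Group.IsSolvable (Cy r) := inferInstance
  have h2 : Group.IsSolvable (Cy r → G) := by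
    obtain ⟨n, hn⟩ := (isSolvable_def G).mp inferInstance
    refine (isSolvable_def _).mpr ⟨n, ?_⟩
    rw [eq_bot_iff]
    intro x hx
    rw [Subgroup.mem_bot]
    funext i
    have h3 : (x i) ∈ derivedSeries G n := by
      have h4 := map_derivedSeries_le_derivedSeries (Pi.evalMonoidHom (fun _ : Cy r => G) i) n
      exact h4 ⟨x, hx, rfl⟩
    rw [hn, Subgroup.mem_bot] at h3
    exact h3
  exact solvable_of_ker_le_range (SemidirectProduct.inl (N := Cy r → G) (G := Cy r))
    (SemidirectProduct.rightHom) (by rw [SemidirectProduct.range_inl_eq_ker_rightHom])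

/-- **one class is enough** -/
theorem one_class {p : ℕ} [Fact p.Prime] (hp2 : p ≠ 2)
    (C : ∀ (G : Type) [Group G], Subgroup G → Prop)
    (hC : ∀ (G : Type) [Group G] [Fintype G] (P : Subgroup G), C G P →
      ∀ (H : Type) [Group H] [Fintype H], Group.IsSolvable H → ¬ p ∣ Nat.card H → C (G × H) (P.prod ⊥))
    (hyp : ∀ (G : Type) [Group G] [Fintype G] (P : Sylow p G), C G P → ∃ k : Cp p,
      dlt p G P k = 0)
    (G : Type) [Group G] [Fintype G] (P : Sylow p G) (hP : C G P) (k : Cp p) :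
    dlt p G P k = 0 := by
  have hp : p.Prime := Fact.out
  let S : Set (Cp p → ℤ) := {δ | ∃ (G : Type) (_ : Group G) (_ : Fintype G) (P : Sylow p G),
    C G P ∧ δ = dlt p G P}
  have step : ∀ δ ∈ S, ∀ (c : Cp p) (M : ℤ), ∃ δ' ∈ S, ∃ x y r : ℤ, 0 < x ∧ 0 < y ∧ M * x < y ∧
      ∀ k, r * δ' k = y * δ (k * c⁻¹) + x * δ k := by
    rintro δ ⟨G, _, _, P, hP, rfl⟩ c M
    obtain ⟨a, ha, hDG⟩ := DG_two p
    obtain ⟨N, hN⟩ := growth a ha M.toNat
    obtain ⟨n, hn, rfl⟩ := cls_surj c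
    have hu : IsUnit (n : ZMod p) := by
      rw [isUnit_iff_ne_zero, Ne, ZMod.natCast_eq_zero_iff]
      exact hn
    obtain ⟨r, hr, hrp, hrn⟩ := Nat.forall_exists_prime_gt_and_eq_mod hu (max N p)
    have : Fact r.Prime := ⟨hrp⟩
    have hNr : N ≤ r := (le_max_left _ _).trans hr.le
    have hpr : p ≠ r := ((le_max_right N p).trans_lt hr).ne
    have hcls : cls p r = cls p n := by
      refine (cls_eq ?_ hn).mpr (Or.inl hrn)
      rw [← ZMod.natCast_eq_zero_iff, hrn, ZMod.natCast_eq_zero_iff]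
      exact hn
    have hfw : Finite (Wc (Cy 2) r) := fin_wc (Cy 2) r
    have : Fintype (Wc (Cy 2) r) := Fintype.ofFinite _
    have hcard : ¬ p ∣ Nat.card (Wc (Cy 2) r) := by
      rw [card_wc, Nat.card_congr Multiplicative.toAdd, Nat.card_zmod, hp.dvd_mul, not_or]
      refine ⟨fun h => ?_, fun h => ?_⟩
      · exact hp2 ((Nat.prime_dvd_prime_iff_eq hp Nat.prime_two).mp (hp.dvd_of_dvd_pow h))
      · exact hpr ((Nat.prime_dvd_prime_iff_eq hp hrp).mp h)
    obtain ⟨P', hP'⟩ := syl_prod hcard P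
    have hg := hN r hNr
    have hM : (M.toNat : ℤ) * ((r : ℤ) ^ 2 * a) < (a : ℤ) ^ r - a := hg
    have hx : (0 : ℤ) < (r : ℤ) ^ 2 * a := by
      have h1 : (0 : ℤ) < r := by exact_mod_cast hrp.pos
      have h2 : (0 : ℤ) < a := by exact_mod_cast (by omega : 0 < a)
      positivity
    refine ⟨dlt p (G × Wc (Cy 2) r) (P' : Subgroup (G × Wc (Cy 2) r)),
      ⟨G × Wc (Cy 2) r, inferInstance, inferInstance, P', ?_, rfl⟩,
      (r : ℤ) ^ 2 * a, (a : ℤ) ^ r - a, r, hx, ?_, ?_, ?_⟩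
    · rw [hP']
      have : Group.IsSolvable (Cy 2) := inferInstance
      exact hC G P hP _ (solv_wc (Cy 2) r) hcard
    · refine lt_of_le_of_lt ?_ hM
      positivity
    · refine lt_of_le_of_lt ?_ hM
      exact mul_le_mul_of_nonneg_right (Int.self_le_toNat M) hx.le
    · intro k
      rw [hP', ← hcls]
      exact dlt_step hp2 (P : Subgroup G) hDG r hpr k
  by_contra hne
  obtain ⟨δ', ⟨G', _, _, P', hP', rfl⟩, hδ'⟩ := full_of_step S step (dlt p G P)
    ⟨G, inferInstance, inferInstance, P, hP, rfl⟩ (fun h => hne (congrFun h k))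
  obtain ⟨k', hk'⟩ := hyp G' P' hP'
  exact hδ' k' hk'

end Pool.Agent.Q17.AM
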