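import Pool.Agent.Q17.AM.All

/-!
# Consequences for the Alperin-McKay conjecture
-/

set_option autoImplicit false

open scoped Classical

noncomputable section

namespace Pool.Agent.Q17.AM

open Pool.Agent.H254R3.IN hiding NN
open Pool.Agent.Q17.WR Pool.Agent.Q17.RB Pool.Agent.Q17.DC
open Pool.Agent.Q66.RB

lemma gc_of_st {G : Type} [Group G] {B : Set (G → ℂ)} {s : ℂ ≃+* ℂ} {u : ℕ}
    (h : ∀ χ ∈ B, ∀ g, s (χ g) = χ (g ^ u)) (hs : St s B) : gc u B = B := by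
  ext χ
  constructor
  · rintro ⟨θ, hθ, rfl⟩
    have h1 := (hs θ).mp hθ
    have h2 : (fun g => s (θ g)) = fun g => θ (g ^ u) := funext fun g => h θ hθ g
    rwa [h2] at h1
  · intro hχ
    have h1 : (fun g => s (s.symm (χ g))) = χ := funext fun g => s.apply_symm_apply _
    have h2 : (fun g => s.symm (χ g)) ∈ B := (hs _).mpr (by rw [h1]; exact hχ)
    exact ⟨_, h2, h1.symm.trans (funext fun g => h _ h2 g)⟩

lemma st_of_gc {G : Type} [Group G] {B : Set (G → ℂ)} {s : ℂ ≃+* ℂ} {u : ℕ}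
    (h : ∀ χ ∈ B, ∀ g, s (χ g) = χ (g ^ u)) (hg : gc u B = B) : St s B := by
  intro χ
  constructor
  · intro hχ
    have h2 : (fun g => s (χ g)) = fun g => χ (g ^ u) := funext fun g => h χ hχ g
    rw [h2, ← hg]
    exact ⟨χ, hχ, rfl⟩
  · intro hχ
    rw [← hg] at hχ
    obtain ⟨θ, hθ, h1⟩ := hχ
    have h2 : χ = θ := by
      funext g
      apply s.injective
      rw [h θ hθ g]
      exact congrFun h1 g
    rw [h2]
    exact hθ

/-- an automorphism which fixes the block fixes its Brauer correspondent -/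
theorem st_corr {G : Type} [Group G] [Fintype G] {p : ℕ} [Fact p.Prime] {O : ValuationSubring ℂ}
    (hO : (p : ℂ) ∈ O.nonunits) {B : Set (G → ℂ)} {D : Subgroup G} {b : Set (NN D → ℂ)}
    (hd : Dt p O B D b) {s : ℂ ≃+* ℂ} (hs : St s B) : St s b := by
  obtain ⟨hB, hD, hb⟩ := hd
  have : Fintype (Pool.Agent.Q17.AM.NN D) := Fintype.ofFinite _
  have hn0 : NeZero (Nat.card G) := ⟨Nat.card_pos.ne'⟩
  obtain ⟨u, hu⟩ := exists_unit (n := Nat.card G) s
  have hcN : Nat.card (Pool.Agent.Q17.AM.NN D) ∣ Nat.card G := Subgroup.card_subgroup_dvd_card _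
  have hc := ZMod.val_coe_unit_coprime u
  have h1 := p_gcb G p O hO (u : ZMod (Nat.card G)).val hc
  have h2 := p_gcb (NN D) p O hO (u : ZMod (Nat.card G)).val (Nat.Coprime.coprime_dvd_right hcN hc)
  have h3 := gc_of_st ((h1.2 B hB).2.2 s hu) hs
  have h4 := ((h1.2 B hB).2.1 D hD).2 b hb
  rw [h3] at h4
  have h5 := (p_fmt G p O hO D (defect_pgroup hD) B hB).2.2 _ _ h4 hb
  refine st_of_gc ((h2.2 b hb.1).2.2 s fun ζ hζ => hu ζ ?_) h5
  obtain ⟨m, hm⟩ := hcN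
  rw [hm, pow_mul, hζ, one_pow]

/-- the number of Galois conjugates of a function -/
def nc {G : Type} (χ : G → ℂ) : ℕ := {ψ : G → ℂ | ∃ s : ℂ ≃+* ℂ, ψ = fun g => s (χ g)}.ncard

lemma nc_conj {G : Type} (χ : G → ℂ) (s : ℂ ≃+* ℂ) : nc (fun g => s (χ g)) = nc χ := by
  unfold nc
  congr 1
  ext ψ
  constructor
  · rintro ⟨t, rfl⟩
    exact ⟨s.trans t, rfl⟩
  · rintro ⟨t, rfl⟩
    exact ⟨s.symm.trans t, funext fun g => congrArg t (s.symm_apply_apply _).symm⟩

/-- counting modulo `r` -/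
lemma count_mod {G : Type} {X : Set (G → ℂ)} (hX : X.Finite) (hst : Gst X) (r : ℕ) :
    (r : ℤ) ∣ (X.ncard : ℤ) - (({χ | χ ∈ X ∧ ¬ r ∣ nc χ} : Set (G → ℂ)).ncard : ℤ) := by
  have h1 : X = {χ | χ ∈ X ∧ ¬ r ∣ nc χ} ∪ {χ | χ ∈ X ∧ r ∣ nc χ} := by
    ext χ
    constructor
    · intro h
      by_cases h2 : r ∣ nc χ
      · exact Or.inr ⟨h, h2⟩
      · exact Or.inl ⟨h, h2⟩
    · rintro (h | h) <;> exact h.1
  have hf1 : ({χ | χ ∈ X ∧ ¬ r ∣ nc χ} : Set (G → ℂ)).Finite := hX.subset fun _ h => h.1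
  have hf2 : ({χ | χ ∈ X ∧ r ∣ nc χ} : Set (G → ℂ)).Finite := hX.subset fun _ h => h.1
  have h2 : X.ncard = ({χ | χ ∈ X ∧ ¬ r ∣ nc χ} : Set (G → ℂ)).ncard +
      ({χ | χ ∈ X ∧ r ∣ nc χ} : Set (G → ℂ)).ncard := by
    conv_lhs => rw [h1]
    refine Set.ncard_union_eq ?_ hf1 hf2
    rw [Set.disjoint_left]
    exact fun χ h3 h4 => h3.2 h4.2
  have h3 : r ∣ ({χ | χ ∈ X ∧ r ∣ nc χ} : Set (G → ℂ)).ncard := by
    obtain ⟨Y, hY⟩ : ∃ Y : Set (G → ℂ), Y = {χ | χ ∈ X ∧ r ∣ nc χ} := ⟨_, rfl⟩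
    have hmem : ∀ χ, χ ∈ Y ↔ χ ∈ X ∧ r ∣ nc χ := fun χ => by rw [hY]; rfl
    rw [← hY]
    have hfY : Y.Finite := by rw [hY]; exact hf2
    have hfin : Finite Y := hfY
    have : Fintype Y := Fintype.ofFinite Y
    -- the relation of conjugacy
    let R : Setoid Y :=
      { r := fun a b => ∃ s : ℂ ≃+* ℂ, b.1 = fun g => s (a.1 g)
        iseqv :=
          { refl := fun a => ⟨RingEquiv.refl ℂ, rfl⟩
            symm := by
              rintro a b ⟨s, hs⟩
              exact ⟨s.symm, funext fun g => by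
                rw [hs]; exact (s.symm_apply_apply _).symm⟩
            trans := by
              rintro a b c ⟨s, hs⟩ ⟨t, ht⟩
              exact ⟨s.trans t, by rw [ht, hs]; rfl⟩ } }
    have h5 : ∀ a : Y, Nat.card {b : Y // R a b} = nc a.1 := by
      intro a
      have ha : a.1 ∈ X ∧ r ∣ nc a.1 := (hmem _).mp a.2
      unfold nc
      rw [← Nat.card_coe_set_eq]
      refine Nat.card_congr
        { toFun := fun b => ⟨b.1.1, b.2⟩
          invFun := fun ψ => ⟨⟨ψ.1, by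
            obtain ⟨s, hs⟩ := ψ.2
            rw [hs, hmem]
            exact ⟨(hst s a.1).mp ha.1, by rw [nc_conj]; exact ha.2⟩⟩, ψ.2⟩
          left_inv := fun b => rfl
          right_inv := fun ψ => rfl }
    have h6 : Nat.card Y = ∑ c : Quotient R, Nat.card {b : Y // (Quotient.mk R b) = c} := by
      rw [Nat.card_congr (Equiv.sigmaFiberEquiv (Quotient.mk R)).symm, Nat.card_sigma]
    rw [← Nat.card_coe_set_eq, h6]
    refine Finset.dvd_sum fun c _ => ?_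
    obtain ⟨a, rfl⟩ := Quotient.exists_rep c
    have h7 : Nat.card {b : Y // (Quotient.mk R b) = Quotient.mk R a} = nc a.1 := by
      rw [← h5 a]
      refine Nat.card_congr (Equiv.subtypeEquivRight fun b => ?_)
      rw [Quotient.eq]
      exact ⟨fun h => R.symm h, fun h => R.symm h⟩
    rw [h7]
    exact ((hmem _).mp a.2).2
  obtain ⟨k, hk⟩ := h3
  refine ⟨k, ?_⟩
  rw [h2, hk]
  push_cast
  ring

end Pool.Agent.Q17.AM
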