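import Pool.Agent.Q17.AM.Fin

/-!
# The final theorems on the Alperin-McKay conjecture
-/

set_option autoImplicit false

open scoped Classical

noncomputable section

namespace Pool.Agent.Q17.AM

open Pool.Agent.H254R3.IN hiding NN
open Pool.Agent.Q17.WR Pool.Agent.Q17.RB Pool.Agent.Q17.DC
open Pool.Agent.Q66.RB

lemma exists_prime {p m : ℕ} (hm : ∀ k, m ≠ p ^ k) :
    ∃ r : ℕ, r.Prime ∧ r ∣ m ∧ p ≠ r := by
  by_cases h0 : m = 0
  · obtain ⟨r, hr, hr'⟩ := Nat.exists_infinite_primes (p + 1)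
    exact ⟨r, hr', by rw [h0]; exact dvd_zero r, by omega⟩
  · by_contra h
    push Not at h
    refine hm _ (Nat.eq_prime_pow_of_unique_prime_dvd h0 fun {d} hd hdm => ?_)
    exact (h d hd hdm).symm

lemma fxd_one {G : Type} (X : Set (G → ℂ)) : Fxd X 1 = X := by
  ext χ
  exact ⟨fun h => h.1, fun h => ⟨h, fun _ => rfl⟩⟩

lemma rp_one (r n : ℕ) : Rp 1 r n := ⟨1, Nat.coprime_one_left r, fun _ _ => rfl⟩

/-- the equality modulo `r` in a class of blocks -/
theorem am_r {p r : ℕ} [Fact p.Prime] [Fact r.Prime] (hpr : p ≠ r) {O : ValuationSubring ℂ}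
    (hO : (p : ℂ) ∈ O.nonunits) (C : ∀ (G : Type) [Group G], Set (G → ℂ) → Subgroup G → Prop)
    (hC : ∀ (G : Type) [Group G] [Fintype G] (B : Set (G → ℂ)) (D : Subgroup G), IsBlock O B →
      IsDefectGroup p O B D → D ≠ ⊥ → C G B D → C (Wc G r) (LX (r := r) B) (Dw r D))
    (h : ∀ (G : Type) [Group G] [Fintype G] (B : Set (G → ℂ)) (D : Subgroup G)
      (b : Set (NN D → ℂ)), Dt p O B D b → C G B D →
      (r : ℤ) ∣ ((Irr0 p D B).ncard : ℤ) - ((Irr0 p (D.subgroupOf (NN D)) b).ncard : ℤ))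
    {G : Type} [Group G] [Fintype G] {B : Set (G → ℂ)} {D : Subgroup G} {b : Set (NN D → ℂ)}
    (hd : Dt p O B D b) (hc : C G B D) :
    (Irr0 p D B).ncard = (Irr0 p (D.subgroupOf (NN D)) b).ncard := by
  have h1 := p_amc p r hpr O hO {s | s = 1} (fun s hs u => by
      change s ^ u = 1
      rw [show s = 1 from hs, one_pow]) C hC ?_ G B D b hd hc 1 rfl
    (fun χ => Iff.rfl) (fun χ => Iff.rfl) (rp_one _ _)
  · rwa [fxd_one, fxd_one] at h1
  · intro G _ _ B D b hd hc s hs _ _ _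
    rw [show s = 1 from hs, fxd_one, fxd_one]
    exact h G B D b hd hc

/-- a class of finite groups closed under isomorphism and finite powers -/
def Cl (X : ∀ (P : Type) [Group P], Prop) : Prop :=
  (∀ (P Q : Type) [Group P] [Group Q], Nonempty (P ≃* Q) → X P → X Q) ∧
  ∀ (P : Type) [Group P] (n : ℕ), 1 ≤ n → X P → X (Fin n → P)

lemma Cl.fun {X : ∀ (P : Type) [Group P], Prop} (hX : Cl X) {P A : Type} [Group P] [Finite A]
    [Nonempty A] (h : X P) : X (A → P) := by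
  obtain ⟨n, ⟨e⟩⟩ := Finite.exists_equiv_fin A
  have hn : 1 ≤ n := by
    obtain ⟨a⟩ := ‹Nonempty A›
    have := (e a).isLt
    omega
  exact hX.1 _ _ ⟨(MulEquiv.arrowCongr e (MulEquiv.refl P)).symm⟩ (hX.2 P n hn h)

/-- the components -/
def eDw {G : Type} [Group G] {r : ℕ} [Fact r.Prime] (D : Subgroup G) : Dw r D ≃* (Cy r → D) where
  toFun x ω := ⟨x.1.left ω, x.2.2 ω⟩
  invFun f := ⟨⟨fun ω => (f ω : G), 1⟩, rfl, fun ω => (f ω).2⟩
  left_inv x := Subtype.ext (SemidirectProduct.ext rfl x.2.1.symm)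
  right_inv f := rfl
  map_mul' x y := by
    funext ω
    refine Subtype.ext ?_
    change x.1.left ω * y.1.left (x.1.right⁻¹ * ω) = x.1.left ω * y.1.left ω
    rw [x.2.1, inv_one, one_mul]

def eDa {G A : Type} [Group G] [Group A] (D : Subgroup G) : Da A D ≃* (A → D) where
  toFun x ω := ⟨x.1.left ω, x.2.2 ω⟩
  invFun f := ⟨⟨fun ω => (f ω : G), 1⟩, rfl, fun ω => (f ω).2⟩
  left_inv x := Subtype.ext (SemidirectProduct.ext rfl x.2.1.symm)
  right_inv f := rfl
  map_mul' x y := by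
    funext ω
    refine Subtype.ext ?_
    change x.1.left ω * y.1.left (x.1.right⁻¹ * ω) = x.1.left ω * y.1.left ω
    rw [x.2.1, inv_one, one_mul]

lemma gst_lx {G : Type} [Group G] {r : ℕ} [Fact r.Prime] {B : Set (G → ℂ)} (h : Gst B) :
    Gst (LX (r := r) B) := fun s => Pool.Agent.Q137.AM.lx_st (h s)

lemma gst_irr0 {G : Type} [Group G] {B : Set (G → ℂ)} (h : Gst B) (p : ℕ) (D : Subgroup G) :
    Gst (Irr0 p D B) := fun s => Pool.Agent.Q137.AM.irr0_st (h s) p D

/-- the members of height zero with a number of Galois conjugates prime to `r` -/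
def Ir (p r : ℕ) {G : Type} [Group G] (D : Subgroup G) (B : Set (G → ℂ)) : Set (G → ℂ) :=
  {χ | χ ∈ Irr0 p D B ∧ ¬ r ∣ nc χ}

lemma block_fin {G : Type} [Group G] [Fintype G] {O : ValuationSubring ℂ} {B : Set (G → ℂ)}
    (hB : IsBlock O B) : B.Finite :=
  (Pool.Agent.Helper884.IC.irr_finite (G := G)).subset fun χ h => hB.irr χ h

lemma irr0_fin {G : Type} [Group G] [Fintype G] {O : ValuationSubring ℂ} {B : Set (G → ℂ)}
    (hB : IsBlock O B) (p : ℕ) (D : Subgroup G) : (Irr0 p D B).Finite :=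
  (block_fin hB).subset fun _ h => h.1

/-- the reduction to Galois-stable blocks and characters with few conjugates -/
theorem am_gal {p r : ℕ} [Fact p.Prime] [Fact r.Prime] (hpr : p ≠ r) {O : ValuationSubring ℂ}
    (hO : (p : ℂ) ∈ O.nonunits) (X : ∀ (P : Type) [Group P], Prop) (hX : Cl X)
    (h : ∀ (G : Type) [Group G] [Fintype G] (B : Set (G → ℂ)) (D : Subgroup G)
      (b : Set (NN D → ℂ)), Dt p O B D b → Gst B → X D →
      (r : ℤ) ∣ ((Ir p r D B).ncard : ℤ) - ((Ir p r (D.subgroupOf (NN D)) b).ncard : ℤ))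
    {G : Type} [Group G] [Fintype G] {B : Set (G → ℂ)} {D : Subgroup G} {b : Set (NN D → ℂ)}
    (hd : Dt p O B D b) (hD : X D) :
    (Irr0 p D B).ncard = (Irr0 p (D.subgroupOf (NN D)) b).ncard := by
  -- Galois-stable blocks
  have h1 : ∀ {G : Type} [Group G] [Fintype G] {B : Set (G → ℂ)} {D : Subgroup G}
      {b : Set (NN D → ℂ)}, Dt p O B D b → Gst B → X D →
      (Irr0 p D B).ncard = (Irr0 p (D.subgroupOf (NN D)) b).ncard := by
    intro G _ _ B D b hd hg hD
    refine am_r hpr hO (fun G _ B D => Gst B ∧ X D) ?_ ?_ hd ⟨hg, hD⟩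
    · rintro G _ _ B D _ _ _ ⟨h2, h3⟩
      refine ⟨gst_lx h2, hX.1 _ _ ⟨(eDw D).symm⟩ ?_⟩
      have : NeZero r := ⟨(Fact.out : r.Prime).ne_zero⟩
      exact hX.fun h3
    · rintro G _ _ B D b hd ⟨h2, h3⟩
      have : Fintype (Pool.Agent.Q17.AM.NN D) := Fintype.ofFinite _
      have hgb : Gst b := fun s => st_corr hO hd (h2 s)
      have h4 := count_mod (irr0_fin hd.1 p D) (gst_irr0 h2 p D) r
      have h5 := count_mod (irr0_fin hd.2.2.1 p (D.subgroupOf (NN D)))
        (gst_irr0 hgb p (D.subgroupOf (NN D))) r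
      have h6 := h G B D b hd h2 h3
      have h7 := dvd_add (dvd_sub h4 h5) h6
      have h8 : ((Irr0 p D B).ncard : ℤ) - ((Irr0 p (D.subgroupOf (NN D)) b).ncard : ℤ) =
          (((Irr0 p D B).ncard : ℤ) -
            (({χ | χ ∈ Irr0 p D B ∧ ¬ r ∣ nc χ} : Set (G → ℂ)).ncard : ℤ) -
          (((Irr0 p (D.subgroupOf (NN D)) b).ncard : ℤ) -
            (({χ | χ ∈ Irr0 p (D.subgroupOf (NN D)) b ∧ ¬ r ∣ nc χ} :
              Set (NN D → ℂ)).ncard : ℤ))) +
          (((Ir p r D B).ncard : ℤ) - ((Ir p r (D.subgroupOf (NN D)) b).ncard : ℤ)) := by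
        unfold Ir
        ring
      rw [h8]
      exact h7
  -- the general case
  obtain ⟨A, _, _, β, b', -, hdt, hg, -, -, hcount⟩ := p_rat G p O hO B D b hd
  have hfin : Finite (Wr G A A) := Finite.of_equiv _ SemidirectProduct.equivProd.symm
  have : Fintype (Wr G A A) := Fintype.ofFinite _
  have h2 := hcount 1 (fun χ => Iff.rfl) (fun χ => Iff.rfl)
  rw [fxd_one, fxd_one, fxd_one, fxd_one] at h2
  have h3 := h1 hdt hg (hX.1 _ _ ⟨(eDa D).symm⟩ (hX.fun hD))
  rw [h2.1, h2.2] at h3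
  have hA : Fintype.card A ≠ 0 := Fintype.card_ne_zero
  exact Nat.pow_left_injective hA h3

end Pool.Agent.Q17.AM
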