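import Pool.Agent.Q17.AM.Fin2
import Pool.Agent.Q237.AM.MGR
import Pool.Agent.Q237.AM.MCR

/-!
# The McKay-Galois equality modulo `r` (the proof is by helper237, with a class of groups added)
-/

set_option autoImplicit false

open scoped Classical

noncomputable section

namespace Pool.Agent.Q17.AM

open Pool.Agent.H254R3.IN hiding NN
open Pool.Agent.Q17.WR Pool.Agent.Q17.RB
open Pool.Agent.Q237.AM

/-- the McKay-Galois equality modulo `r` for a class of groups and Sylow subgroups -/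
theorem mgc (p r : ℕ) [Fact p.Prime] [Fact r.Prime] (hpr : p ≠ r) (S : Set (ℂ ≃+* ℂ))
    (hS : ∀ s ∈ S, ∀ u : ℕ, s ^ u ∈ S) (C : ∀ (G : Type) [Group G], Subgroup G → Prop)
    (hC : ∀ (G : Type) [Group G] [Fintype G] (P : Subgroup G), C G P → C (Wc G r) (Dw r P))
    (hyp : ∀ (G : Type) [Group G] [Fintype G] (P : Sylow p G), C G P → ∀ s ∈ S,
      Rp s r (Nat.card G) → (r : ℤ) ∣ ((Fxd (Ip p G) s).ncard : ℤ) -
        ((Fxd (Ip p (NN (P : Subgroup G))) s).ncard : ℤ))
    (G : Type) [Group G] [Fintype G] (P : Sylow p G) (hCG : C G P) (s : ℂ ≃+* ℂ) (hs : s ∈ S)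
    (hRp : Rp s r (Nat.card G)) :
    (Fxd (Ip p G) s).ncard = (Fxd (Ip p (NN (P : Subgroup G))) s).ncard := by
  have hCLS := p_cls
  have hNUM := p_num
  have hTRN := p_trn
  have hSYL := p_syl
  have hGV := p_gv
  have hr : r.Prime := Fact.out
  have main : ∀ j : ℕ, 1 ≤ j → ∀ (G : Type) [Group G] [Fintype G] (P : Sylow p G), C G P → ∀ s ∈ S,
      Rp s r (Nat.card G) →
      (r : ℤ) ^ j ∣ ((Fxd (Ip p G) s).ncard : ℤ) -
        ((Fxd (Ip p (NN (P : Subgroup G))) s).ncard : ℤ) := by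
    intro j hj
    induction j, hj using Nat.le_induction with
    | base =>
      intro G _ _ P hCG s hs hRp
      rw [pow_one]
      exact hyp G P hCG s hs hRp
    | succ j hj ih =>
      intro G _ _ P hCG s hs hRp
      obtain ⟨P', hP'⟩ := hSYL G p r hpr P
      obtain ⟨e, -, -⟩ := hTRN G r (P : Subgroup G)
      have := fin_wc G r
      have : Fintype (Wc G r) := Fintype.ofFinite _
      have := fin_wc (NN (P : Subgroup G)) r
      have : Fintype (Wc (NN (P : Subgroup G)) r) := Fintype.ofFinite _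
      have hG0 : 0 < Nat.card G := Nat.card_pos
      have hN0 : 0 < Nat.card (Wc G r) := Nat.card_pos
      obtain ⟨v, hv⟩ := hGV.2.2 s r (Nat.card G) hG0 hRp
      have hdvd : Nat.card G ∣ Nat.card (Wc G r) := by
        rw [card_wc]
        exact dvd_mul_of_dvd_left (dvd_pow_self _ hr.ne_zero) _
      obtain ⟨u, hu, hu'⟩ := hGV.2.1 (s ^ v) r (Nat.card G) (Nat.card (Wc G r)) hN0 hdvd
        (rp_pow hRp v)
      have hNd : Nat.card (NN (P : Subgroup G)) ∣ Nat.card G := Subgroup.card_subgroup_dvd_card _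
      have hsr : ∀ ζ : ℂ, ζ ^ Nat.card G = 1 → (((s ^ v) ^ u) ^ r) ζ = s ζ := fun ζ hζ => by
        rw [agree_pow hu r ζ hζ, hv ζ hζ]
      -- the hypothesis for the wreath product
      have h1 := ih (Wc G r) P' (by rw [hP']; exact hC G P hCG) ((s ^ v) ^ u) (hS _ (hS s hs v) u) hu'
      have h4 : (Fxd (Ip p (NN (P' : Subgroup (Wc G r)))) ((s ^ v) ^ u)).ncard =
          (Fxd (Ip p (Wc (NN (P : Subgroup G)) r)) ((s ^ v) ^ u)).ncard := by
        rw [hP']
        exact (fxd_iso e (fun χ => ip_iso e χ) _).symm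
      rw [h4, ← lx_ip hCLS hpr, ← lx_ip hCLS hpr] at h1
      -- the hypothesis for the group
      have h0 := ih G P hCG (s ^ v) (hS s hs v) (rp_pow hRp v)
      have n1 := hNUM G r (Ip p G) (fun χ hχ => hχ.1) ((s ^ v) ^ u) (fun χ => ip_gal _ χ)
      have n2 := hNUM (NN (P : Subgroup G)) r (Ip p _) (fun χ hχ => hχ.1) ((s ^ v) ^ u)
        (fun χ => ip_gal _ χ)
      rw [fxd_congr hGV (fun χ hχ => hχ.1) dvd_rfl hsr,
        fxd_congr hGV (X := Ip p G) (fun χ hχ => hχ.1) dvd_rfl hu] at n1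
      rw [fxd_congr hGV (fun χ hχ => hχ.1) hNd hsr,
        fxd_congr hGV (X := Ip p (NN (P : Subgroup G))) (fun χ hχ => hχ.1) hNd hu] at n2
      by_cases hz : ∀ ζ : ℂ, ζ ^ r = 1 → ((s ^ v) ^ u) ζ = ζ
      · rw [if_pos hz] at n1 n2
        exact step_num (c := (r : ℤ) * (r - 1)) hj (dvd_mul_right _ _) n1 n2 h0 h1
      · rw [if_neg hz] at n1 n2
        refine step_num (c := 0) hj (dvd_zero _) ?_ ?_ h0 h1
        · rw [n1, zero_mul]
        · rw [n2, zero_mul]
  have h0 : (((Fxd (Ip p G) s).ncard : ℕ) : ℤ) -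
      (((Fxd (Ip p (NN (P : Subgroup G))) s).ncard : ℕ) : ℤ) = 0 := by
    apply zero_of_dvd hr.two_le
    intro j hj
    exact main j hj G P hCG s hs hRp
  have h1 := sub_eq_zero.1 h0
  exact_mod_cast h1


/-- the equality for the degrees modulo `p` up to sign, modulo `r`, for a class of groups and Sylow
subgroups -/
theorem mcc (p r : ℕ) [Fact p.Prime] [Fact r.Prime] (hpr : p ≠ r) (hrC : ¬ r ∣ Nat.card (Cp p))
    (C : ∀ (G : Type) [Group G], Subgroup G → Prop)
    (hC : ∀ (G : Type) [Group G] [Fintype G] (P : Subgroup G), C G P → C (Wc G r) (Dw r P))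
    (hyp : ∀ (G : Type) [Group G] [Fintype G] (P : Sylow p G), C G P → ∀ k : Cp p,
      (r : ℤ) ∣ (({χ | χ ∈ Ip p G ∧ dcl p χ = k} : Set (G → ℂ)).ncard : ℤ) -
        (({χ | χ ∈ Ip p (NN (P : Subgroup G)) ∧ dcl p χ = k} :
          Set (NN (P : Subgroup G) → ℂ)).ncard : ℤ))
    (G : Type) [Group G] [Fintype G] (P : Sylow p G) (hCG : C G P) (k : Cp p) :
    ({χ | χ ∈ Ip p G ∧ dcl p χ = k} : Set (G → ℂ)).ncard =
      ({χ | χ ∈ Ip p (NN (P : Subgroup G)) ∧ dcl p χ = k} :
        Set (NN (P : Subgroup G) → ℂ)).ncard := by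
  have hDEG := p_deg
  have hTRN := p_trn
  have hSYL := p_syl
  have hr : r.Prime := Fact.out
  have main : ∀ j : ℕ, 1 ≤ j → ∀ (G : Type) [Group G] [Fintype G] (P : Sylow p G), C G P → ∀ (k : Cp p),
      (r : ℤ) ^ j ∣ (DG p (Ip p G)).coeff k - (DG p (Ip p (NN (P : Subgroup G)))).coeff k := by
    intro j hj
    induction j, hj using Nat.le_induction with
    | base =>
      intro G _ _ P hCG k
      rw [pow_one, dg_coeff p (ip_fin p), dg_coeff p (ip_fin p)]
      exact hyp G P hCG k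
    | succ j hj ih =>
      intro G _ _ P hCG k
      obtain ⟨P', hP'⟩ := hSYL G p r hpr P
      obtain ⟨e, -, -⟩ := hTRN G r (P : Subgroup G)
      have := fin_wc G r
      have : Fintype (Wc G r) := Fintype.ofFinite _
      have := fin_wc (NN (P : Subgroup G)) r
      have : Fintype (Wc (NN (P : Subgroup G)) r) := Fintype.ofFinite _
      have h1 := ih (Wc G r) P' (by rw [hP']; exact hC G P hCG)
      have h2 := (hDEG G p r hpr).2
      have h3 := (hDEG (NN (P : Subgroup G)) p r hpr).2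
      have h4 : DG p (Ip p (NN (P' : Subgroup (Wc G r)))) =
          DG p (Ip p (Wc (NN (P : Subgroup G)) r)) := by
        rw [hP']
        exact (dg_iso p e).symm
      rw [h4] at h1
      exact stepG (cp_comm p) hj (cop_of hr hrC) (cls p r) _ _ _ _ h2 h3 (ih G P hCG) h1 k
  have h0 : ((({χ | χ ∈ Ip p G ∧ dcl p χ = k} : Set (G → ℂ)).ncard : ℕ) : ℤ) -
      ((({χ | χ ∈ Ip p (NN (P : Subgroup G)) ∧ dcl p χ = k} :
        Set (NN (P : Subgroup G) → ℂ)).ncard : ℕ) : ℤ) = 0 := by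
    apply zero_of_dvd hr.two_le
    intro j hj
    have h1 := main j hj G P hCG k
    rw [dg_coeff p (ip_fin p), dg_coeff p (ip_fin p)] at h1
    exact h1
  have h1 := sub_eq_zero.1 h0
  exact_mod_cast h1

end Pool.Agent.Q17.AM
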