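import Pool.Agent.Q17.AM.Mgc

/-!
# Galois-stability and counting for the characters of degree prime to `p`
-/

set_option autoImplicit false

open scoped Classical

noncomputable section

namespace Pool.Agent.Q17.AM

open Pool.Agent.H254R3.IN hiding NN
open Pool.Agent.Q17.WR Pool.Agent.Q17.RB
open Pool.Agent.Q237.AM Pool.Agent.Q66.RB

lemma gal_comm {G : Type} [Group G] [Fintype G] {χ : G → ℂ} (hχ : IsIrr χ) (s t : ℂ ≃+* ℂ)
    (g : G) : s (t (χ g)) = t (s (χ g)) := by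
  have hn0 : NeZero (Nat.card G) := ⟨Nat.card_pos.ne'⟩
  obtain ⟨u, hu⟩ := exists_unit (n := Nat.card G) s
  obtain ⟨v, hv⟩ := exists_unit (n := Nat.card G) t
  refine p_gv.1 G χ hχ (t.trans s) (s.trans t) (fun ζ hζ => ?_) g
  change s (t ζ) = t (s ζ)
  rw [hv ζ hζ, hu ζ hζ, map_pow, map_pow, hu ζ hζ, hv ζ hζ, ← pow_mul, ← pow_mul, mul_comm]

lemma gst_of {G : Type} [Group G] [Fintype G] {X : Set (G → ℂ)}
    (h : ∀ (t : ℂ ≃+* ℂ) (χ : G → ℂ), χ ∈ X → (fun g => t (χ g)) ∈ X) : Gst X := by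
  intro t χ
  refine ⟨h t χ, fun h1 => ?_⟩
  have h3 := h t.symm _ h1
  have h4 : (fun g => t.symm ((fun g => t (χ g)) g)) = χ :=
    funext fun g => t.symm_apply_apply _
  rwa [h4] at h3

lemma gst_fxd_ip {G : Type} [Group G] [Fintype G] (p : ℕ) (s : ℂ ≃+* ℂ) :
    Gst (Fxd (Ip p G) s) :=
  gst_of fun t χ h => ⟨(ip_gal t χ).mp h.1, fun g => by
    change s (t (χ g)) = t (χ g)
    rw [gal_comm h.1.1, h.2 g]⟩

lemma ip_finite {G : Type} [Group G] [Fintype G] (p : ℕ) : (Ip p G).Finite :=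
  (Pool.Agent.Helper884.IC.irr_finite (G := G)).subset fun χ h => h.1

/-- only the characters with a number of Galois conjugates prime to `r` matter modulo `r` -/
lemma mod_of_nc {G H : Type} {X₁ : Set (G → ℂ)} {X₂ : Set (H → ℂ)} (h1 : X₁.Finite)
    (h2 : X₂.Finite) (g1 : Gst X₁) (g2 : Gst X₂) {r : ℕ}
    (h : (r : ℤ) ∣ (({χ | χ ∈ X₁ ∧ ¬ r ∣ nc χ} : Set (G → ℂ)).ncard : ℤ) -
      (({χ | χ ∈ X₂ ∧ ¬ r ∣ nc χ} : Set (H → ℂ)).ncard : ℤ)) :
    (r : ℤ) ∣ (X₁.ncard : ℤ) - (X₂.ncard : ℤ) := by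
  have h3 := count_mod h1 g1 r
  have h4 := count_mod h2 g2 r
  have h5 := dvd_add (dvd_sub h3 h4) h
  have h6 : (X₁.ncard : ℤ) - (X₂.ncard : ℤ) =
      ((X₁.ncard : ℤ) - (({χ | χ ∈ X₁ ∧ ¬ r ∣ nc χ} : Set (G → ℂ)).ncard : ℤ) -
      ((X₂.ncard : ℤ) - (({χ | χ ∈ X₂ ∧ ¬ r ∣ nc χ} : Set (H → ℂ)).ncard : ℤ))) +
      ((({χ | χ ∈ X₁ ∧ ¬ r ∣ nc χ} : Set (G → ℂ)).ncard : ℤ) -
      (({χ | χ ∈ X₂ ∧ ¬ r ∣ nc χ} : Set (H → ℂ)).ncard : ℤ)) := by ring
  rw [h6]
  exact h5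

/-- classes modulo `p` up to sign -/
lemma cls_eq {p : ℕ} [Fact p.Prime] {n k : ℕ} (hn : ¬ p ∣ n) (hk : ¬ p ∣ k) :
    cls p n = cls p k ↔ (n : ZMod p) = k ∨ (n : ZMod p) = -k := by
  have hn' : (n : ZMod p) ≠ 0 := fun h => hn ((ZMod.natCast_eq_zero_iff n p).mp h)
  have hk' : (k : ZMod p) ≠ 0 := fun h => hk ((ZMod.natCast_eq_zero_iff k p).mp h)
  unfold cls
  rw [dif_pos hn', dif_pos hk', QuotientGroup.eq, Subgroup.mem_zpowers_iff]
  constructor
  · rintro ⟨m, hm⟩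
    rcases Int.even_or_odd m with h | h
    · left
      rw [h.neg_one_zpow] at hm
      have h1 : Units.mk0 (n : ZMod p) hn' = Units.mk0 (k : ZMod p) hk' := by
        rw [← mul_one (Units.mk0 (n : ZMod p) hn'), hm, mul_inv_cancel_left]
      exact congrArg Units.val h1
    · right
      rw [h.neg_one_zpow] at hm
      have h1 : Units.mk0 (k : ZMod p) hk' = -Units.mk0 (n : ZMod p) hn' := by
        rw [← mul_neg_one (Units.mk0 (n : ZMod p) hn'), hm, mul_inv_cancel_left]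
      have h2 := congrArg Units.val h1
      rw [Units.val_neg] at h2
      change (k : ZMod p) = -(n : ZMod p) at h2
      rw [h2, neg_neg]
  · rintro (h | h)
    · refine ⟨0, ?_⟩
      rw [zpow_zero, eq_comm, inv_mul_eq_one]
      exact Units.ext h
    · refine ⟨1, ?_⟩
      rw [zpow_one, eq_comm, inv_mul_eq_iff_eq_mul, mul_neg_one]
      apply Units.ext
      rw [Units.val_neg]
      change (k : ZMod p) = -(n : ZMod p)
      rw [h, neg_neg]

lemma cls_surj {p : ℕ} [Fact p.Prime] (c : Cp p) : ∃ k : ℕ, ¬ p ∣ k ∧ cls p k = c := by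
  obtain ⟨u, rfl⟩ := QuotientGroup.mk_surjective c
  refine ⟨(u : ZMod p).val, fun h => ?_, ?_⟩
  · have h1 := (ZMod.natCast_eq_zero_iff _ p).mpr h
    rw [ZMod.natCast_val, ZMod.cast_id] at h1
    exact u.ne_zero h1
  · unfold cls
    have h1 : (((u : ZMod p).val : ℕ) : ZMod p) = u := by
      rw [ZMod.natCast_val, ZMod.cast_id]
    have h2 : (((u : ZMod p).val : ℕ) : ZMod p) ≠ 0 := by
      rw [h1]
      exact u.ne_zero
    rw [dif_pos h2]
    congr 1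
    exact Units.ext h1

lemma dcl_eq {p : ℕ} [Fact p.Prime] {G : Type} [Group G] {χ : G → ℂ} {n : ℕ}
    (hn : (n : ℂ) = χ 1) : dcl p χ = cls p n := by
  have h : ∃ n : ℕ, (n : ℂ) = χ 1 := ⟨n, hn⟩
  unfold dcl
  rw [dif_pos h]
  congr 1
  have h1 := h.choose_spec.trans hn.symm
  exact_mod_cast h1

/-- the order of the group of classes -/
lemma card_cp {p : ℕ} [hp : Fact p.Prime] (h2 : p ≠ 2) : Nat.card (Cp p) = (p - 1) / 2 := by
  have h1 : orderOf (-1 : (ZMod p)ˣ) = 2 := by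
    refine orderOf_eq_prime (by rw [neg_one_sq]) fun h => ?_
    have h3 := congrArg Units.val h
    rw [Units.val_neg, Units.val_one] at h3
    have h4 : ((2 : ℕ) : ZMod p) = 0 := by
      push_cast
      have : (1 : ZMod p) + 1 = 0 := by
        nth_rewrite 1 [← h3]
        exact neg_add_cancel 1
      rw [← this]
      norm_num
    have h5 := (ZMod.natCast_eq_zero_iff 2 p).mp h4
    exact h2 ((Nat.prime_dvd_prime_iff_eq hp.out Nat.prime_two).mp h5)
  have h3 := Subgroup.card_eq_card_quotient_mul_card_subgroup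
    (Subgroup.zpowers (-1 : (ZMod p)ˣ))
  rw [Nat.card_zpowers, h1, Nat.card_eq_fintype_card, ZMod.card_units] at h3
  change p - 1 = Nat.card (Cp p) * 2 at h3
  rw [h3, Nat.mul_div_cancel _ two_pos]

end Pool.Agent.Q17.AM
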