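import Pool.Agent.Q17.WR.Stm2

/-!
# Statements of the parts of project AM (character counting conjectures modulo a prime `r`)

`Wc G r` is the wreath product of `G` with the cyclic group of prime order `r` acting regularly.
Library: `S_ZRP`, `S_ZPR` (`t_ZRP` in `Q16.WR.ZRP`, `t_ZPR` in `Q150.WR.ZPR`); `H254R3.IN` (`omega`,
`IsBlock`, `blockCoeff`, `IsDefectGroup`, `IsBrauerCorrespondent`, `Om`, `red_Om`, `Om_blockCoeff`,
`IsIrr.conj`, `IsIrr.deg`, `IsIrr.omega_mem`); `Q17.TC.Stm` (`t_IRN` in `Q17.TC.IRN`); `IC.B` in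
`Helper884.IC.Compl`.
-/

set_option autoImplicit false

open scoped Classical

noncomputable section

namespace Pool.Agent.Q17.AM

open Pool.Agent.H254R3.IN
open Pool.Agent.Q17.WR

/-- the cyclic group of order `r` -/
abbrev Cy (r : ℕ) : Type := Multiplicative (ZMod r)

/-- the wreath product of `G` with the cyclic group of order `r`; the product is
`(x * y).left ω = x.left ω * y.left (x.right⁻¹ * ω)` -/
abbrev Wc (G : Type) [Group G] (r : ℕ) : Type := Wr G (Cy r) (Cy r)

section

variable {G : Type} [Group G] {r : ℕ} [Fact r.Prime]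

/-- the induced character -/
def nch (f : Cy r → G → ℂ) (x : Wc G r) : ℂ :=
  if x.right = 1 then ∑ a : Cy r, prf (fun ω => f (a * ω)) x.left else 0

/-- the extensions of the character `θ ⊗ ... ⊗ θ` -/
def cch (θ : G → ℂ) (l : Cy r →* ℂˣ) (x : Wc G r) : ℂ :=
  if x.right = 1 then ∏ ω, θ (x.left ω) else (l x.right : ℂ) * θ ((x ^ r).left 1)

/-- the family `f` is not constant -/
def Ncn (f : Cy r → G → ℂ) : Prop := ∃ ω ω' : Cy r, f ω ≠ f ω'

/-- the characters of `Wc G r` over products of members of `X` -/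
def LX (X : Set (G → ℂ)) : Set (Wc G r → ℂ) :=
  {χ | (∃ f : Cy r → G → ℂ, (∀ ω, f ω ∈ X) ∧ Ncn f ∧ χ = nch f) ∨
    ∃ θ ∈ X, ∃ l : Cy r →* ℂˣ, χ = cch θ l}

/-- the subgroup of the base group with all components in `D` -/
def Dw (r : ℕ) (D : Subgroup G) : Subgroup (Wc G r) where
  carrier := {x | x.right = 1 ∧ ∀ ω, x.left ω ∈ D}
  one_mem' := ⟨rfl, fun _ => D.one_mem⟩
  mul_mem' := by
    rintro x y ⟨hx, hx'⟩ ⟨hy, hy'⟩
    refine ⟨by rw [SemidirectProduct.mul_right, hx, hy, one_mul], fun ω => ?_⟩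
    rw [SemidirectProduct.mul_left]
    exact D.mul_mem (hx' ω) (hy' _)
  inv_mem' := by
    rintro x ⟨hx, hx'⟩
    refine ⟨by rw [SemidirectProduct.inv_right, hx, inv_one], fun ω => ?_⟩
    rw [SemidirectProduct.inv_left]
    exact D.inv_mem (hx' _)

end

/-- JOB TRC. The tensor induced representation. Proof. Let `M` be a matrix representation of `G` with
character `θ` (entries in `Fin d`), `I = Cy r → Fin d`, and let `x` act on `I → ℂ` by the matrix with
the entries `∏ ω, M (x.left ω) (i ω) (j (x.right⁻¹ * ω))` (multiplicative: `Finset.prod_univ_sum`; or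
use `t_ZRP`). Its trace is `∑ i, ∏ ω, M (x.left ω) (i ω) (i (x.right⁻¹ * ω))`. For `x.right = 1` this is
`∏ θ (x.left ω)`. For `a = x.right ≠ 1` the elements of `Cy r` are the `a ^ (-k)`, `k < r`, and the
sum is the trace of `M (x.left 1) * M (x.left a⁻¹) * ... * M (x.left a⁻¹ ^ (r - 1)) =
M ((x ^ r).left 1)` (for matrices `A k`, `k : ZMod r` or `Fin r`:
`∑ i, ∏ k, A k (i k) (i (k + 1)) = trace (product)`, from the expansion of a product of matrices). -/
def S_TRC : Prop := ∀ (G : Type) [Group G] [Fintype G] (r : ℕ) [Fact r.Prime] (θ : G → ℂ),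
  IsIrr θ → ∃ (V : Type) (_ : AddCommGroup V) (_ : Module ℂ V) (_ : FiniteDimensional ℂ V)
    (ρ : Representation ℂ (Wc G r) V), ρ.character = cch θ 1

/-- JOB CLS (uses `S_TRC` and `S_ZPR`). The irreducible characters of `Wc G r`. Proof. (2) `cch θ l` is
the character of a representation (`S_TRC` and the linear character `l`), and it has norm
`(1 / (r |G| ^ r)) (|G| ^ r + (r - 1) |G| ^ (r - 1) |G|) = 1`: for `a ≠ 1` the sum over the `x` with
`x.right = a` of `|θ ((x ^ r).left 1)|²` is `|G| ^ (r - 1) ∑ |θ g|²`, since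
`(x ^ r).left 1 = x.left 1 * x.left a⁻¹ * ...` takes every value `|G| ^ (r - 1)` times; use `t_IRN`. (1)
`nch f` is the character induced from `prf f` (a character of the base group), and its norm is
`(1 / (r |G| ^ r)) ∑_{a, b} ∑_m prf (f ∘ a) m * prf (f ∘ b) m⁻¹ = 1`, since the `r` functions
`ω ↦ f (a * ω)` are different (`r` prime and `f` not constant) and the `prf f` are orthonormal
(`S_ZPR`). (4), (5), (6): restrict to the base group, where the `prf f` are linearly independent, and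
for `l` evaluate at `inr a`: `cch θ l (inr a) = l a * θ 1`. (3) The squares of the degrees of the
characters in (1), (2) add up to `∑_{f not constant} r ∏ (f ω 1)² + r ∑_θ (θ 1) ^ (2 r) =
r |G| ^ r`, so there are no others (or: a class function orthogonal to all of them is zero; or: an
irreducible `χ` is a constituent of `nch f` or of `∑ l, cch θ l`, the character induced from
`prf f`, for some `f`). -/
def S_CLS : Prop := ∀ (G : Type) [Group G] [Fintype G] (r : ℕ) [Fact r.Prime],
  (∀ f : Cy r → G → ℂ, (∀ ω, IsIrr (f ω)) → Ncn f → IsIrr (nch f)) ∧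
  (∀ θ : G → ℂ, IsIrr θ → ∀ l : Cy r →* ℂˣ, IsIrr (cch θ l)) ∧
  (∀ χ : Wc G r → ℂ, IsIrr χ → χ ∈ LX (r := r) {θ : G → ℂ | IsIrr θ}) ∧
  (∀ f f' : Cy r → G → ℂ, (∀ ω, IsIrr (f ω)) → (∀ ω, IsIrr (f' ω)) → Ncn f → nch f = nch f' →
    ∃ a : Cy r, f' = fun ω => f (a * ω)) ∧
  (∀ (θ θ' : G → ℂ) (l l' : Cy r →* ℂˣ), IsIrr θ → IsIrr θ' → cch θ l = cch θ' l' →
    θ = θ' ∧ l = l') ∧
  ∀ (f : Cy r → G → ℂ) (θ : G → ℂ) (l : Cy r →* ℂˣ), (∀ ω, IsIrr (f ω)) → Ncn f → IsIrr θ →
    nch f ≠ cch θ l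

/-- the members of `X` with values fixed by `s` -/
def Fxd {G : Type} (X : Set (G → ℂ)) (s : ℂ ≃+* ℂ) : Set (G → ℂ) := {χ | χ ∈ X ∧ ∀ g, s (χ g) = χ g}

/-- JOB NUM (uses `S_CLS`). The number of the members of `LX X` fixed by `s`. Proof.
`s ∘ nch f = nch (s ∘ f)` and `s ∘ cch θ l = cch (s ∘ θ) (s ∘ l)`. By `S_CLS` the fixed members of
the second kind are the `cch θ l` with `θ`, `l` fixed by `s`, and there are `r` or one such `l`. The
members of the first kind are the orbits of `Cy r` on the non-constant `f`, all of size `r`, and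
`nch f` is fixed if `s ∘ f = f ∘ a` for exactly one `a`. For `a = 1` there are
`|X^s| ^ r - |X^s|` such `f`. For `a ≠ 1` every `ω` is `a ^ k`, `f (a ^ k) = s ^ k ∘ f 1`, so `f` is
determined by `f 1`, a member of `X` fixed by `s ^ r`, and `f` is constant if and only if `f 1` is
fixed by `s`; so there are `|X^(s^r)| - |X^s|` such `f`. -/
def S_NUM : Prop := ∀ (G : Type) [Group G] [Fintype G] (r : ℕ) [Fact r.Prime] (X : Set (G → ℂ)),
  (∀ χ ∈ X, IsIrr χ) → ∀ s : ℂ ≃+* ℂ, (∀ χ : G → ℂ, χ ∈ X ↔ (fun g => s (χ g)) ∈ X) →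
  (r : ℤ) * ((Fxd (LX (r := r) X) s).ncard : ℤ) = ((Fxd X s).ncard : ℤ) ^ r +
    (r - 1) * ((Fxd X (s ^ r)).ncard : ℤ) +
    (if ∀ ζ : ℂ, ζ ^ r = 1 → s ζ = ζ then r * (r - 1) * ((Fxd X s).ncard : ℤ) else 0)

/-- JOB CCL. Central characters of `Wc G r`. Proof. (1) Elements of the base group: the class of `x` in
`Wc G r` is the union of the classes in the base group of the `r` elements
`(ω ↦ x.left (a * ω))`, which have the same size `∏ ω, |class of x.left ω|`, `n` is the number of the
different ones; the values of the characters are given by the definition. (2) For `x.right = a ≠ 1`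
put `g = (x ^ r).left 1 = x.left 1 * x.left a⁻¹ * ...`; `x` is conjugate under the base group to
`y` with `y.right = a`, `y.left 1 = g` and `y.left ω = 1` for `ω ≠ 1`, and
`(m, 1) y (m, 1)⁻¹` has the `r`-th power with `left 1 = m 1 * g * (m 1)⁻¹`; the number of the
conjugates of `x` is `|G| ^ (r - 1) * |class of g|`: they are the `y` with `y.right = a` and
`(y ^ r).left 1` conjugate to `g` (`Cy r` is abelian; conjugation by `inr b` changes
`(y ^ r).left 1` to `(y ^ r).left b⁻¹`, which is conjugate to it, as `y ^ r` commutes with `y`). -/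
def S_CCL : Prop := ∀ (G : Type) [Group G] [Fintype G] (r : ℕ) [Fact r.Prime],
  (∀ x : Wc G r, x.right = 1 → ∃ n : ℕ,
    Nat.card {y : Wc G r // IsConj x y} = n * ∏ ω, Nat.card {y : G // IsConj (x.left ω) y} ∧
    (n = 1 ∨ n = r) ∧
    (∀ f : Cy r → G → ℂ, (r : ℂ) * omega (nch f) x =
      n * ∑ a : Cy r, ∏ ω, omega (f (a * ω)) (x.left ω)) ∧
    ∀ (θ : G → ℂ) (l : Cy r →* ℂˣ), omega (cch θ l) x = n * ∏ ω, omega θ (x.left ω)) ∧
  ∀ x : Wc G r, x.right ≠ 1 → (∀ f : Cy r → G → ℂ, omega (nch f) x = 0) ∧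
    ∀ (θ : G → ℂ) (l : Cy r →* ℂˣ), θ 1 ≠ 0 → omega (cch θ l) x =
      (l x.right : ℂ) * ((Nat.card G : ℂ) / θ 1) ^ (r - 1) * omega θ ((x ^ r).left 1)

/-- all members of `B` are of positive `p`-defect -/
def Pos {G : Type} [Group G] (O : ValuationSubring ℂ) (B : Set (G → ℂ)) : Prop :=
  ∀ θ ∈ B, (Nat.card G : ℂ) / θ 1 ∈ O.nonunits

/-- JOB BLK (uses `S_CLS`, `S_CCL`). The block of `Wc G r` over a block of `G` of positive defect.
Proof. (1) All members of `LX B` have congruent central characters: for `x.right ≠ 1` the values are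
in `O.nonunits` by `S_CCL` (2); for `x.right = 1` they are congruent to `n ∏ ω, omega θ (x.left ω)` for
any `θ ∈ B` (`r` is a unit of `O`, as it is prime to `p`: `nat_inv_mem`). Conversely let `χ ∈ Irr` be
congruent to a member of `LX B`, `χ` over the family `f` (`S_CLS` (3)). The class function
`E x = ∏ ω, blockCoeff B (x.left ω)` for `x.right = 1`, `0` otherwise, has values in `O`
(`blockCoeff_mem`) and `Om E χ = (1 / r) ∑ a, ∏ ω, Om (blockCoeff B) (f (a * ω))` is `1` if all
`f ω ∈ B` and `0` otherwise (`Om_blockCoeff`); by `red_Om` it is `1`. (2) Expand: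
`∑_{χ ∈ LX B} χ 1 * χ x⁻¹` is `r ∑_{f : Cy r → B} ∏ ω, f ω 1 * f ω (x.left ω)⁻¹` for `x.right = 1`
(sum over the orbits of the non-constant `f`, and `r` times over `l` for the constant ones), and `0`
for `x.right ≠ 1` since `∑ l, l a = 0` for `a ≠ 1`. (3) Let `x₀` be a defect class of `B` with Sylow
`p`-subgroup `D` of its centraliser, `x` the constant function `x₀`: `C(x) = {y | all y.left ω ∈ C(x₀)}`
has the normal subgroup `Dw r C(x₀)` of index `r`, prime to `p`, so `Dw r D` is a Sylow `p`-subgroup of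
`C(x)`; `omega χ x` and the coefficient are units by (2) and `S_CCL` (`n = 1`). -/
def S_BLK : Prop := ∀ (G : Type) [Group G] [Fintype G] (p r : ℕ) [Fact p.Prime] [Fact r.Prime],
  p ≠ r → ∀ O : ValuationSubring ℂ, (p : ℂ) ∈ O.nonunits → ∀ B : Set (G → ℂ), IsBlock O B →
  Pos O B → IsBlock O (LX (r := r) B) ∧
  (∀ x : Wc G r, blockCoeff (LX (r := r) B) x =
    if x.right = 1 then ∏ ω, blockCoeff B (x.left ω) else 0) ∧
  ∀ D : Subgroup G, IsDefectGroup p O B D → IsDefectGroup p O (LX (r := r) B) (Dw r D)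

/-- JOB POS. Blocks with defect group `D ≠ 1`. Proof. Let `x` be a defect class, `D` a Sylow
`p`-subgroup of `C_G(x)`, and suppose that `|G| / θ 1` is a unit of `O` for some `θ ∈ B`, that is
`θ` has defect zero. Then `θ` vanishes on the elements of order divisible by `p` (in the pool: search
for defect zero in `Y63.AWC`), and `B = {θ}` (for `χ ∈ Irr`, `χ ≠ θ`, in the same block: the class
function `E g = (θ 1 / |G|) θ g⁻¹` has values in `O`, `Om E θ = 1`, `Om E χ = 0`, and `red_Om`). So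
`omega θ x * blockCoeff B x = θ x * θ x⁻¹ / |C_G(x)|` is a unit of `O`. But for every `p`-subgroup
`D` of `C_G(x)` the number `θ x / |D|` is an algebraic integer: `∑_{z ∈ D} θ (z x) = θ x` (the terms
with `z ≠ 1` vanish: `x` is a `p'`-element, as otherwise `θ x = 0`) and the restriction of `θ` to
`D⟨x⟩`, a direct product, shows that `|D|⁻¹ ∑_{z ∈ D} θ (z x)` is an algebraic integer. So
`θ x * θ x⁻¹ / |C_G(x)|` is in `|D| O`, hence `D = 1`. -/
def S_POS : Prop := ∀ (G : Type) [Group G] [Fintype G] (p : ℕ) [Fact p.Prime]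
  (O : ValuationSubring ℂ), (p : ℂ) ∈ O.nonunits → ∀ B : Set (G → ℂ), IsBlock O B →
  ∀ D : Subgroup G, IsDefectGroup p O B D → D ≠ ⊥ → Pos O B

/-- the normaliser of a subgroup -/
abbrev NN {G : Type} [Group G] (D : Subgroup G) : Subgroup G := Subgroup.normalizer (D : Set G)

/-- JOB BOT. The case of the trivial defect group: `NN ⊥` is the whole group `G` and `b` consists of the
restrictions of the members of `B` to it (`b^G = B` means that the central characters agree). -/
def S_BOT : Prop := ∀ (G : Type) [Group G] [Fintype G] (p : ℕ) [Fact p.Prime]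
  (O : ValuationSubring ℂ), (p : ℂ) ∈ O.nonunits → ∀ (B : Set (G → ℂ))
  (b : Set (NN (⊥ : Subgroup G) → ℂ)), IsBlock O B → IsBrauerCorrespondent p O ⊥ B b →
  b = {θ : NN (⊥ : Subgroup G) → ℂ | ∃ χ ∈ B, ∀ x : NN (⊥ : Subgroup G), θ x = χ x}

/-- JOB TRN. The normaliser of `Dw r D` -/
def S_TRN : Prop := ∀ (G : Type) [Group G] (r : ℕ) [Fact r.Prime] (D : Subgroup G),
  ∃ e : Wc (NN D) r ≃* NN (Dw r D), (∀ x, (e x : Wc G r).right = x.right) ∧
    ∀ x ω, (e x : Wc G r).left ω = (x.left ω : G)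

/-- JOB COR (uses `S_CLS`, `S_CCL`, `S_BLK`). The Brauer correspondent of `LX B`. Proof. `LX b` is a
block of `Wc (NN D) r` with defect group `Dw r D` by `S_BLK`; transport along the isomorphism `e`.
Let `x ∈ Wc G r`. If `x.right ≠ 1` then `omega χ x` is in `O.nonunits`, and so is the sum over the
`y`: it is the sum of the `omega θ` over the classes of `NN (Dw r D)` in the class of `x`. If
`x.right = 1`, `omega χ x` is congruent to `n ∏ ω, omega χ₀ (x.left ω)` for `χ₀ ∈ B`. The elements of the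
base group conjugate to `x` form `n` classes of the base group, those of the
`x_a = (ω ↦ x.left (a * ω))`, and for every one of them the sum over its elements `y` with all
`y ω ∈ NN D` of `prf f y / prf f 1`, `f : Cy r → b`, is
`∏ ω, (∑ over the y ∈ NN D conjugate to x_a ω of f ω y / f ω 1)`, congruent to
`∏ ω, omega χ₀ (x.left (a * ω)) = ∏ ω, omega χ₀ (x.left ω)`. (`θ y / θ 1` for `θ ∈ LX b` is the average
over `a` of `prf (f ∘ a) y / prf f 1`.) -/
def S_COR : Prop := ∀ (G : Type) [Group G] [Fintype G] (p r : ℕ) [Fact p.Prime] [Fact r.Prime],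
  p ≠ r → ∀ O : ValuationSubring ℂ, (p : ℂ) ∈ O.nonunits → ∀ (B : Set (G → ℂ)) (D : Subgroup G)
  (b : Set (NN D → ℂ)), IsBlock O B → Pos O B → Pos O b → IsDefectGroup p O B D →
  IsBrauerCorrespondent p O D B b → ∀ e : Wc (NN D) r ≃* NN (Dw r D),
  (∀ x, (e x : Wc G r).right = x.right) → (∀ x ω, (e x : Wc G r).left ω = (x.left ω : G)) →
  IsBrauerCorrespondent p O (Dw r D) (LX (r := r) B)
    {θ | (fun x => θ (e x)) ∈ LX (r := r) b}

end Pool.Agent.Q17.AM
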