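import Pool.Agent.Q17.AM.Stm3
import Pool.Agent.Q17.AM.Nt

/-!
# Final statements of project AM
-/

set_option autoImplicit false

open scoped Classical

noncomputable section

namespace Pool.Agent.Q17.AM

open Pool.Agent.H254R3.IN
open Pool.Agent.Q17.WR
open Pool.Agent.Q17.DC

/-- some power of `s` with exponent prime to `r` is trivial on the `n`-th roots of unity -/
def Rp (s : ℂ ≃+* ℂ) (r n : ℕ) : Prop :=
  ∃ j : ℕ, Nat.Coprime j r ∧ ∀ ζ : ℂ, ζ ^ n = 1 → (s ^ j) ζ = ζ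

/-- the set `B` is stable under `s` -/
def St {G : Type} (s : ℂ ≃+* ℂ) (B : Set (G → ℂ)) : Prop :=
  ∀ χ : G → ℂ, χ ∈ B ↔ (fun g => s (χ g)) ∈ B

/-- the characters of height zero in the block `B` with defect group `D` -/
def Irr0 (p : ℕ) {G : Type} [Group G] (D : Subgroup G) (B : Set (G → ℂ)) : Set (G → ℂ) :=
  {χ | χ ∈ B ∧ ∃ n : ℕ, (n : ℂ) = χ 1 ∧ n.factorization p = D.index.factorization p}

/-- a block `B`, a defect group `D` and the Brauer correspondent `b` of `B` in the normaliser of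
`D` -/
def Dt {G : Type} [Group G] (p : ℕ) (O : ValuationSubring ℂ) (B : Set (G → ℂ)) (D : Subgroup G)
    (b : Set (NN D → ℂ)) : Prop :=
  IsBlock O B ∧ IsDefectGroup p O B D ∧ IsBrauerCorrespondent p O D B b

/-- JOB HT. Heights are not negative. Proof. Let `x` be a defect class; `|G : D|` and the size of the
class of `x` have the same `p`-part `p ^ a`. If `n = χ 1` had `p`-part `p ^ b`, `b < a`, then
`omega χ x = |x^G| χ x / n` would be in `O.nonunits` (`χ x ∈ O`, numbers prime to `p` are units of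
`O`). -/
def S_HT : Prop := ∀ (G : Type) [Group G] [Fintype G] (p : ℕ) [Fact p.Prime]
  (O : ValuationSubring ℂ), (p : ℂ) ∈ O.nonunits → ∀ (B : Set (G → ℂ)) (D : Subgroup G),
  IsBlock O B → IsDefectGroup p O B D → ∀ χ ∈ B, ∀ n : ℕ, (n : ℂ) = χ 1 →
  D.index.factorization p ≤ n.factorization p

/-- JOB IZ (`t_IZ : S_HT → S_IZ`). Characters of height zero of `Wc G r`. Proof. `nch f 1 = r ∏ f ω 1`,
`cch θ l 1 = θ 1 ^ r`, and `Dw r D` has index `r |G : D| ^ r`; compare `p`-parts, `S_HT` gives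
inequalities for all factors. -/
def S_IZ : Prop := ∀ (G : Type) [Group G] [Fintype G] (p r : ℕ) [Fact p.Prime] [Fact r.Prime],
  p ≠ r → ∀ O : ValuationSubring ℂ, (p : ℂ) ∈ O.nonunits → ∀ (B : Set (G → ℂ)) (D : Subgroup G),
  IsBlock O B → IsDefectGroup p O B D →
  Irr0 p (Dw r D) (LX (r := r) B) = LX (r := r) (Irr0 p D B)

/-- JOB GV. Automorphisms of `ℂ` which agree on the `|G|`-th roots of unity agree on the values of
characters (`s (χ g) = χ (g ^ m)` if `s ζ = ζ ^ m` for these roots; see `exp_of` in `Q17.TP.Fin`); and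
arithmetic of the condition `Rp`. Proof of (2): let `σ` have the finite order `K = r ^ a * K'` on the
`N`-th roots of unity, `K'` prime to `r`; choose `u` with `u ≡ 1` modulo `K'`, `r ^ a ∣ u`. On the
`n`-th roots the order of `s` divides `K` and is prime to `r`, so it divides `K'`. (3): choose `v` with
`r v ≡ 1` modulo `j`. -/
def S_GV : Prop :=
  (∀ (G : Type) [Group G] [Fintype G] (χ : G → ℂ), IsIrr χ → ∀ s t : ℂ ≃+* ℂ,
    (∀ ζ : ℂ, ζ ^ Nat.card G = 1 → s ζ = t ζ) → ∀ g, s (χ g) = t (χ g)) ∧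
  (∀ (s : ℂ ≃+* ℂ) (r n N : ℕ) [Fact r.Prime], 0 < N → n ∣ N → Rp s r n → ∃ u : ℕ,
    (∀ ζ : ℂ, ζ ^ n = 1 → (s ^ u) ζ = s ζ) ∧ Rp (s ^ u) r N) ∧
  ∀ (s : ℂ ≃+* ℂ) (r n : ℕ) [Fact r.Prime], 0 < n → Rp s r n → ∃ v : ℕ,
    ∀ ζ : ℂ, ζ ^ n = 1 → ((s ^ v) ^ r) ζ = s ζ

/-- JOB AMR (`t_AMR : S_CLS → S_NUM → S_BLK → S_POS → S_BOT → S_TRN → S_COR → S_IZ → S_GV →
S_AMR`). The Alperin-McKay(-Navarro) equality modulo `r` implies the equality. Proof. Let `L`, `R` be the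
two numbers. By induction on `j ≥ 1` one shows that `r ^ j` divides all `L - R`
(`zero_of_dvd` in `Q17.AM.Nt`). Let it be true for `j`, and let `(G, B, D, b)`, `s` be given. If
`D = ⊥` then `L = R` by `S_BOT` (all degrees in `b` and `B` agree, `⊥` has the same index in `NN ⊥`).
Otherwise `Pos O B` and `Pos O b` by `S_POS`. Let `v` be as in `S_GV` (3) and `s₀ = s ^ v`, so `s₀ ^ r` and
`s` agree on the `|G|`-th roots of unity, and `Rp s₀ r |G|`. Let `u` be as in `S_GV` (2) for `s₀`,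
`N = |Wc G r|`, `s₁ = s₀ ^ u`. Apply the hypothesis for `j` to `Wc G r`, `LX B`, `Dw r D`, the
correspondent in `S_COR` (with `e` from `S_TRN`) and `s₁`: `r ^ j ∣ L' - R'`. By `S_IZ` and `S_NUM` for
`X = Irr0 p D B` and for `Irr0 p (D in NN D) b` (transport by `e`; `S_IZ` for `NN D`):
`r (L' - R') = (L₀ ^ r - R₀ ^ r) + (r - 1) (L - R) + c (L₀ - R₀)`, `c` divisible by `r`, where
`L₀`, `R₀` are the numbers for `s₁`, which are those for `s₀` (`S_GV` (1)), and the ones for `s₁ ^ r` are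
`L`, `R`. As `r ^ j ∣ L₀ - R₀`, `pow_sub_dvd` gives `r ^ (j + 1) ∣ (r - 1) (L - R)`. -/
def S_AMR : Prop := ∀ (p r : ℕ) [Fact p.Prime] [Fact r.Prime], p ≠ r →
  ∀ O : ValuationSubring ℂ, (p : ℂ) ∈ O.nonunits → ∀ S : Set (ℂ ≃+* ℂ),
  (∀ s ∈ S, ∀ u : ℕ, s ^ u ∈ S) →
  (∀ (G : Type) [Group G] [Fintype G] (B : Set (G → ℂ)) (D : Subgroup G) (b : Set (NN D → ℂ)),
    Dt p O B D b → ∀ s ∈ S, St s B → St s b → Rp s r (Nat.card G) →
    (r : ℤ) ∣ ((Fxd (Irr0 p D B) s).ncard : ℤ) -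
      ((Fxd (Irr0 p (D.subgroupOf (NN D)) b) s).ncard : ℤ)) →
  ∀ (G : Type) [Group G] [Fintype G] (B : Set (G → ℂ)) (D : Subgroup G) (b : Set (NN D → ℂ)),
    Dt p O B D b → ∀ s ∈ S, St s B → St s b → Rp s r (Nat.card G) →
    (Fxd (Irr0 p D B) s).ncard = (Fxd (Irr0 p (D.subgroupOf (NN D)) b) s).ncard

/-- JOB MGR (`t_MGR : S_CLS → S_NUM → S_TRN → S_SYL → S_GV → S_MGR`). The same for the McKay-Galois
equality. Proof as for `S_AMR`, with `X = Ip p G`: `LX (Ip p G) = Ip p (Wc G r)` (degrees: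
`r ∏ f ω 1`, `θ 1 ^ r`; this is also in `S_DEG`), and `Dw r P` is a Sylow `p`-subgroup of `Wc G r`
(`S_SYL`) with the normaliser `Wc (NN P) r` (`S_TRN`). -/
def S_MGR : Prop := ∀ (p r : ℕ) [Fact p.Prime] [Fact r.Prime], p ≠ r → ∀ S : Set (ℂ ≃+* ℂ),
  (∀ s ∈ S, ∀ u : ℕ, s ^ u ∈ S) →
  (∀ (G : Type) [Group G] [Fintype G] (P : Sylow p G), ∀ s ∈ S, Rp s r (Nat.card G) →
    (r : ℤ) ∣ ((Fxd (Ip p G) s).ncard : ℤ) - ((Fxd (Ip p (NN (P : Subgroup G))) s).ncard : ℤ)) →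
  ∀ (G : Type) [Group G] [Fintype G] (P : Sylow p G), ∀ s ∈ S, Rp s r (Nat.card G) →
    (Fxd (Ip p G) s).ncard = (Fxd (Ip p (NN (P : Subgroup G))) s).ncard

/-- JOB MCR (`t_MCR : S_DEG → S_TRN → S_SYL → S_MCR`). The same for the degrees modulo `p` up to sign.
Proof. Let `D`, `D'` be the elements `DG p (Ip p G)`, `DG p (Ip p (NN P))` of the group ring `R` of
`Cp p`; their coefficients at `k` are the two numbers. By induction on `j ≥ 1` one shows that
`r ^ j ∣ D - D'` in `R` for all `G`, `P`. By `S_DEG` (and `S_SYL`, `S_TRN`)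
`r (D₁ - D₁') = [r] (D ^ r - D' ^ r) - [r] ψ (D - D') + r ^ 2 ψ (D - D')`, `D₁`, `D₁'` the elements for
`Wc G r`, `Dw r P`; so `pow_sub_dvd` gives `r ^ (j + 1) ∣ ψ (D - D')` (`r ^ 2 ψ (D - D')` is divisible
by `r ^ (j + 2)`, and `[r]` is invertible), and `ψ` is a permutation of the basis `Cp p`, as `r` does
not divide the order of `Cp p`. -/
def S_MCR : Prop := ∀ (p r : ℕ) [Fact p.Prime] [Fact r.Prime], p ≠ r → ¬ r ∣ Nat.card (Cp p) →
  (∀ (G : Type) [Group G] [Fintype G] (P : Sylow p G) (k : Cp p),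
    (r : ℤ) ∣ (({χ | χ ∈ Ip p G ∧ dcl p χ = k} : Set (G → ℂ)).ncard : ℤ) -
      (({χ | χ ∈ Ip p (NN (P : Subgroup G)) ∧ dcl p χ = k} :
        Set (NN (P : Subgroup G) → ℂ)).ncard : ℤ)) →
  ∀ (G : Type) [Group G] [Fintype G] (P : Sylow p G) (k : Cp p),
    ({χ | χ ∈ Ip p G ∧ dcl p χ = k} : Set (G → ℂ)).ncard =
      ({χ | χ ∈ Ip p (NN (P : Subgroup G)) ∧ dcl p χ = k} :
        Set (NN (P : Subgroup G) → ℂ)).ncard

/-- the real-valued members -/
def Rl {G : Type} [Group G] (X : Set (G → ℂ)) : Set (G → ℂ) := {χ | χ ∈ X ∧ ∀ g, χ g⁻¹ = χ g}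

/-- JOB REA (`t_REA : S_CLS → S_GBL → S_GCO → S_CBC → S_TRN → S_HT → S_FMT → S_AMR → S_REA`). Parity of
the numbers of real characters of height zero in real blocks. Proof. By `S_AMR` for `r = 2`,
`S = {1}` it is enough that `2 ∣ |Irr0 B| - |Irr0 b|` for all data. (1) `B = cj B`. Then `b = cj b` by
`S_CBC` and the uniqueness in `S_FMT` (`D` is a `p`-group), `χ ↦ χ(·⁻¹)` is an involution of `Irr0 B` and
of `Irr0 b`, so the numbers of all members and of the real members have the same parity. (2)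
`B ≠ cj B`. Then `(Wc G 2, GX B (cj B), Dw 2 D, _)` is a datum by `S_GBL`, `S_GCO`, `S_CBC`, `S_TRN`, it is
equal to its complex conjugate: the conjugate of `nch (χ₁, χ₂)` is `nch (cj χ₁, cj χ₂)`, which is
`nch (cj χ₂, cj χ₁)`. This shows also that `nch (χ₁, χ₂)` is real if and only if `χ₂ = cj χ₁` (`S_CLS` (4);
`cj χ₁ ∈ cj B`, and `B`, `cj B` are disjoint), and `nch (χ₁, cj χ₁) 1 = 2 (χ₁ 1)²`, so it is of height zero
if and only if `χ₁` is (`Dw 2 D` has index `2 |G : D|²`, `p` odd). So the number of real members of height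
zero is `|Irr0 B|`, and in the same way `|Irr0 b|` for the correspondent. -/
def S_REA : Prop := ∀ (p : ℕ) [Fact p.Prime], p ≠ 2 → ∀ O : ValuationSubring ℂ,
  (p : ℂ) ∈ O.nonunits →
  (∀ (G : Type) [Group G] [Fintype G] (B : Set (G → ℂ)) (D : Subgroup G) (b : Set (NN D → ℂ)),
    Dt p O B D b → cj B = B →
    (2 : ℤ) ∣ ((Rl (Irr0 p D B)).ncard : ℤ) -
      ((Rl (Irr0 p (D.subgroupOf (NN D)) b)).ncard : ℤ)) →
  ∀ (G : Type) [Group G] [Fintype G] (B : Set (G → ℂ)) (D : Subgroup G) (b : Set (NN D → ℂ)),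
    Dt p O B D b → (Irr0 p D B).ncard = (Irr0 p (D.subgroupOf (NN D)) b).ncard

/-- JOB BWR (`t_BWR : S_BLK → S_LLX → S_NWX → S_DZB → S_BWR`). The weight conjecture modulo `r`. Proof. If
`B` is not `Pos` use `S_DZB`. Otherwise `LX B` is a block of `Wc G r`, and `step_int` in `Q17.AM.Nt` with
`c = r ^ 2 - 1` applies; induction on `j`. -/
def S_BWR : Prop := ∀ (p r : ℕ) [Fact p.Prime] [Fact r.Prime], p ≠ r →
  ∀ O : ValuationSubring ℂ, (p : ℂ) ∈ O.nonunits →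
  (∀ (G : Type) [Group G] [Fintype G] (B : Set (G → ℂ)), IsBlock O B →
    (r : ℤ) ∣ (lB p B : ℤ) - (nW p O B : ℤ)) →
  ∀ (G : Type) [Group G] [Fintype G] (B : Set (G → ℂ)), IsBlock O B → lB p B = nW p O B

/-- JOB BWT (`t_BWT : S_BWR → S_GBL → S_CBC → S_MMX → S_LGX → S_NGX → S_BWT`). Real blocks are enough.
Proof. It is enough that `2 ∣ lB p B - nW p O B` for all `B`. If `B ≠ cj B` then `GX B (cj B)` is a block
(`S_MMX` gives a defect group `D` of `B`, also of `cj B` by `S_CBC`), equal to its complex conjugate (see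
`S_REA`), and `lB p (GX B (cj B)) = lB p B ^ 2`, `nW p O (GX B (cj B)) = nW p O B ^ 2`, since
`lB p (cj B) = lB p B` and `nW p O (cj B) = nW p O B` (complex conjugation). -/
def S_BWT : Prop := ∀ (p : ℕ) [Fact p.Prime], p ≠ 2 → ∀ O : ValuationSubring ℂ,
  (p : ℂ) ∈ O.nonunits →
  (∀ (G : Type) [Group G] [Fintype G] (B : Set (G → ℂ)), IsBlock O B → cj B = B →
    (2 : ℤ) ∣ (lB p B : ℤ) - (nW p O B : ℤ)) →
  ∀ (G : Type) [Group G] [Fintype G] (B : Set (G → ℂ)), IsBlock O B → lB p B = nW p O B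

end Pool.Agent.Q17.AM
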